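import Pool.Agent.W46.KK.Final

/-!
# Families of `δ`-tubes with `δ`-separated directions
-/

open Finset MeasureTheory Set
open scoped ENNReal

namespace Pool.Agent.W46.KK

/-- families of segments in `ℝ × ℝ^d` with separated slopes -/
theorem kakV {S : Finset ℚ} {c : ℝ} (hS : SDS S c) (hc : 1 ≤ c) (d : ℕ) (lam : ℝ) (hlam : 0 < lam) :
    ∃ η κ : ℝ, 0 < η ∧ 0 < κ ∧ ∀ (δ : ℝ), 0 < δ → ∀ (V : Finset (Fin d → ℝ))
      (p : (Fin d → ℝ) → Fin d → ℝ) (b : (Fin d → ℝ) → ℝ)
      (T : Set (ℝ × (Fin d → ℝ))), MeasurableSet T →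
      (∀ v ∈ V, ∀ w ∈ V, v ≠ w → ∃ i, 2 * δ / η ≤ |v i - w i|) →
      (∀ v ∈ V, ∀ t ∈ Set.Icc (b v) (b v + lam),
        ∀ y : Fin d → ℝ, (∀ i, |y i - (p v i + t * v i)| ≤ δ) → (t, y) ∈ T) →
      ENNReal.ofReal (κ * δ ^ d * (V.card : ℝ) ^ (1 / c)) ≤ volume T := by
  classical
  have hc0 : 0 < c := by linarith
  obtain ⟨η, κ, hη, hκ, hslab⟩ := slab hS hc0 d (lam / 2) (by positivity)
  refine ⟨η, κ, hη, hκ, ?_⟩
  intro δ hδ V p b T hT hsep hfam
  set μ : ℝ := lam / 2 with hμ
  have hμpos : 0 < μ := by positivity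
  set j : (Fin d → ℝ) → ℤ := fun v => ⌈b v / μ⌉ with hj
  set J := V.image j with hJ
  have hone : ∀ m : ℤ, ENNReal.ofReal (κ * δ ^ d * ((V.filter fun v => j v = m).card : ℝ) ^ (1 / c)) ≤
      volume (T ∩ (Set.Ico (m * μ) (m * μ + μ) ×ˢ Set.univ)) := by
    intro m
    refine hslab δ hδ (V.filter fun v => j v = m) p (m * μ) T hT ?_ ?_
    · intro v hv w hw hne
      exact hsep v (Finset.mem_filter.mp hv).1 w (Finset.mem_filter.mp hw).1 hne
    · intro v hv t ht y hy
      rw [Finset.mem_filter] at hv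
      refine hfam v hv.1 t ?_ y hy
      have h1 : b v / μ ≤ m := by rw [← hv.2]; exact Int.le_ceil _
      have h2 : (m : ℝ) < b v / μ + 1 := by rw [← hv.2]; exact Int.ceil_lt_add_one _
      rw [div_le_iff₀ hμpos] at h1
      have h3 : (m : ℝ) * μ < b v + μ := by
        have := mul_lt_mul_of_pos_right h2 hμpos
        rwa [add_mul, one_mul, div_mul_cancel₀ _ hμpos.ne'] at this
      have hlam' : lam = 2 * μ := by rw [hμ]; ring
      constructor
      · linarith [ht.1]
      · linarith [ht.2]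
  have hdisj : (J : Set ℤ).PairwiseDisjoint fun m : ℤ =>
      T ∩ (Set.Ico ((m : ℝ) * μ) (m * μ + μ) ×ˢ (Set.univ : Set (Fin d → ℝ))) := by
    intro m _ m' _ hmm
    rw [Function.onFun, Set.disjoint_left]
    rintro ⟨t, y⟩ ⟨_, ht, _⟩ ⟨_, ht', _⟩
    apply hmm
    simp only at ht ht'
    have a1 : (m : ℝ) < m' + 1 := by
      by_contra hcon
      push Not at hcon
      have := mul_le_mul_of_nonneg_right hcon hμpos.le
      linarith [ht.1, ht'.2]
    have a2 : (m' : ℝ) < m + 1 := by
      by_contra hcon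
      push Not at hcon
      have := mul_le_mul_of_nonneg_right hcon hμpos.le
      linarith [ht'.1, ht.2]
    have b1 : m < m' + 1 := by exact_mod_cast a1
    have b2 : m' < m + 1 := by exact_mod_cast a2
    omega
  have hsum : ∑ m ∈ J, volume (T ∩ (Set.Ico ((m : ℝ) * μ) (m * μ + μ) ×ˢ Set.univ)) ≤ volume T := by
    rw [← measure_biUnion_finset hdisj fun m _ =>
      hT.inter (measurableSet_Ico.prod MeasurableSet.univ)]
    exact measure_mono (Set.iUnion₂_subset fun m _ => Set.inter_subset_left)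
  refine le_trans ?_ hsum
  refine le_trans ?_ (Finset.sum_le_sum fun m _ => hone m)
  rw [← ENNReal.ofReal_sum_of_nonneg fun m _ => by positivity]
  apply ENNReal.ofReal_le_ofReal
  rw [← Finset.mul_sum]
  have hcardsum : ∑ m ∈ J, ((V.filter fun v => j v = m).card : ℝ) = (V.card : ℝ) := by
    have := Finset.card_eq_sum_card_image j V
    rw [this]
    push_cast
    rfl
  have h1 := rpow_sum_le J (fun m => ((V.filter fun v => j v = m).card : ℝ))
    (fun _ _ => Nat.cast_nonneg _) (θ := 1 / c) (by positivity)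
    (by rw [div_le_one hc0]; exact hc)
  rw [hcardsum] at h1
  gcongr

/-- The `δ`-tube with centre `a` and direction `e` (a unit vector): the closed cylinder of length
`1` and radius `δ` around the segment with centre `a` and direction `e`. -/
def tube {n : ℕ} (δ : ℝ) (a e : EuclideanSpace ℝ (Fin n)) : Set (EuclideanSpace ℝ (Fin n)) :=
  {y | |inner ℝ (y - a) e| ≤ 1 / 2 ∧ ‖(y - a) - (inner ℝ (y - a) e) • e‖ ≤ δ}

theorem near_axis {n : ℕ} {δ : ℝ} (a e y : EuclideanSpace ℝ (Fin n)) (he : ‖e‖ = 1) (s ρ : ℝ)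
    (hs : |s| + ρ ≤ 1 / 2) (hρ : ρ ≤ δ) (hy : ‖y - (a + s • e)‖ ≤ ρ) : y ∈ tube δ a e := by
  set u := y - (a + s • e) with hu
  have hya : y - a = s • e + u := by rw [hu]; abel
  have hin : inner ℝ (y - a) e = s + inner ℝ u e := by
    rw [hya, inner_add_left, inner_smul_left, real_inner_self_eq_norm_sq, he]
    simp
  have hue : |inner ℝ u e| ≤ ρ := by
    refine (abs_real_inner_le_norm u e).trans ?_
    rw [he, mul_one]; exact hy
  refine ⟨?_, ?_⟩
  · rw [hin]
    exact (abs_add_le _ _).trans (by linarith)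
  · rw [hin, hya]
    have h1 : s • e + u - (s + inner ℝ u e) • e = u - (inner ℝ u e) • e := by
      rw [add_smul]; abel
    rw [h1]
    have h2 : ‖u - (inner ℝ u e) • e‖ ^ 2 ≤ ‖u‖ ^ 2 := by
      have h3 : ‖u - (inner ℝ u e) • e‖ ^ 2 = ‖u‖ ^ 2 - (inner ℝ u e) ^ 2 := by
        rw [norm_sub_sq_real, inner_smul_right, norm_smul, he, mul_one, Real.norm_eq_abs, sq_abs]
        ring
      rw [h3]
      nlinarith [sq_nonneg (inner ℝ u e : ℝ)]
    have h4 := (pow_le_pow_iff_left₀ (norm_nonneg _) (norm_nonneg u) two_ne_zero).mp h2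
    linarith

theorem tube_isClosed {n : ℕ} (δ : ℝ) (a e : EuclideanSpace ℝ (Fin n)) : IsClosed (tube δ a e) := by
  have h1 : Continuous fun y : EuclideanSpace ℝ (Fin n) => (inner ℝ (y - a) e : ℝ) :=
    Continuous.inner (continuous_id.sub continuous_const) continuous_const
  have h2 : Continuous fun y : EuclideanSpace ℝ (Fin n) =>
      ‖(y - a) - (inner ℝ (y - a) e : ℝ) • e‖ :=
    ((continuous_id.sub continuous_const).sub (h1.smul continuous_const)).norm
  exact (isClosed_le h1.abs continuous_const).inter (isClosed_le h2 continuous_const)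

/-- coordinates: the coordinate `m` and the rest -/
noncomputable def eqvj (d : ℕ) (m : Fin (d + 1)) :
    EuclideanSpace ℝ (Fin (d + 1)) ≃ᵐ ℝ × (Fin d → ℝ) :=
  (MeasurableEquiv.toLp 2 (Fin (d + 1) → ℝ)).symm.trans
    (MeasurableEquiv.piFinSuccAbove (fun _ => ℝ) m)

theorem eqvj_mp (d : ℕ) (m : Fin (d + 1)) : MeasurePreserving (eqvj d m) volume volume :=
  (EuclideanSpace.volume_preserving_symm_measurableEquiv_toLp (Fin (d + 1))).trans
    (volume_preserving_piFinSuccAbove (fun _ => ℝ) m)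

theorem eqvj_symm (d : ℕ) (m : Fin (d + 1)) (t : ℝ) (y : Fin d → ℝ) :
    (eqvj d m).symm (t, y) = WithLp.toLp 2 (m.insertNth (α := fun _ => ℝ) t y) := by
  apply (eqvj d m).injective
  rw [MeasurableEquiv.apply_symm_apply]
  symm
  refine Prod.ext ?_ ?_
  · exact Fin.insertNth_apply_same (α := fun _ => ℝ) m t y
  · funext k
    exact Fin.insertNth_apply_succAbove (α := fun _ => ℝ) m t y k

/-- directions in one cone: separation of the slopes -/
theorem slope_sep {d : ℕ} {δ : ℝ} (hδ : 0 < δ) (m : Fin (d + 1))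
    (e f : EuclideanSpace ℝ (Fin (d + 1))) (he : ‖e‖ = 1) (hf : ‖f‖ = 1) (hsgn : 0 < e m * f m)
    (hsep : δ ≤ ‖e - f‖) :
    ∃ k : Fin d, δ / (2 * (d + 1)) ≤ |e (m.succAbove k) / e m - f (m.succAbove k) / f m| := by
  by_contra hcon
  push Not at hcon
  have hem : e m ≠ 0 := fun h => by rw [h, zero_mul] at hsgn; exact lt_irrefl _ hsgn
  have hfm : f m ≠ 0 := fun h => by rw [h, mul_zero] at hsgn; exact lt_irrefl _ hsgn
  have hd1 : (0 : ℝ) < (d : ℝ) + 1 := by positivity
  set ρ : ℝ := δ / (2 * (d + 1)) with hρ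
  have hρpos : 0 < ρ := by positivity
  set w : EuclideanSpace ℝ (Fin (d + 1)) := (e m)⁻¹ • e with hw
  set z : EuclideanSpace ℝ (Fin (d + 1)) := (f m)⁻¹ • f with hz
  have hwn : ‖w‖ = |e m|⁻¹ := by rw [hw, norm_smul, he, mul_one, norm_inv, Real.norm_eq_abs]
  have hzn : ‖z‖ = |f m|⁻¹ := by rw [hz, norm_smul, hf, mul_one, norm_inv, Real.norm_eq_abs]
  have hdiff : ‖w - z‖ ^ 2 ≤ d * ρ ^ 2 := by
    rw [EuclideanSpace.norm_eq, Real.sq_sqrt (Finset.sum_nonneg fun _ _ => by positivity),
      Fin.sum_univ_succAbove _ m]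
    have h0 : ‖(w - z) m‖ ^ 2 = 0 := by
      have : (w - z) m = 0 := by
        rw [hw, hz]
        simp only [PiLp.sub_apply, PiLp.smul_apply, smul_eq_mul]
        rw [inv_mul_cancel₀ hem, inv_mul_cancel₀ hfm, sub_self]
      rw [this]; simp
    rw [h0, zero_add]
    calc ∑ k : Fin d, ‖(w - z) (m.succAbove k)‖ ^ 2 ≤ ∑ _k : Fin d, ρ ^ 2 := by
          refine Finset.sum_le_sum fun k _ => ?_
          have h1 : (w - z) (m.succAbove k) = e (m.succAbove k) / e m - f (m.succAbove k) / f m := by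
            rw [hw, hz]
            simp only [PiLp.sub_apply, PiLp.smul_apply, smul_eq_mul]
            ring
          rw [h1, Real.norm_eq_abs]
          exact pow_le_pow_left₀ (abs_nonneg _) (hcon k).le 2
      _ = d * ρ ^ 2 := by
          rw [Finset.sum_const, Finset.card_univ, Fintype.card_fin, nsmul_eq_mul]
  have hem1 : |e m| ≤ 1 := by
    have := PiLp.norm_apply_le e m
    rw [he, Real.norm_eq_abs] at this
    exact this
  have hbound : ‖e - f‖ ≤ 2 * ‖w - z‖ := by
    have h1 : e - f = (e m) • (w - z) + (e m - f m) • z := by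
      rw [hw, hz, smul_sub, sub_smul, smul_smul, smul_smul, smul_smul, mul_inv_cancel₀ hem,
        mul_inv_cancel₀ hfm, one_smul, one_smul]
      abel
    rw [h1]
    refine (norm_add_le _ _).trans ?_
    rw [norm_smul, norm_smul, Real.norm_eq_abs, Real.norm_eq_abs]
    have h2 : |e m| * ‖w - z‖ ≤ ‖w - z‖ := by
      have := mul_le_mul_of_nonneg_right hem1 (norm_nonneg (w - z))
      linarith
    have h3 : |e m - f m| * ‖z‖ ≤ ‖w - z‖ := by
      have h4 : |e m - f m| = |e m| * |f m| * |‖z‖ - ‖w‖| := by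
        rw [hwn, hzn]
        have habs : |e m - f m| = |(|e m| - |f m|)| := by
          rcases lt_or_gt_of_ne hem with he0 | he0
          · have hf0 : f m < 0 := by
              by_contra hf0
              push Not at hf0
              nlinarith
            rw [abs_of_neg he0, abs_of_neg hf0, abs_sub_comm]
            congr 1
            ring
          · have hf0 : 0 < f m := by
              by_contra hf0
              push Not at hf0
              nlinarith
            rw [abs_of_pos he0, abs_of_pos hf0]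
        rw [habs]
        have hpe : 0 < |e m| := abs_pos.mpr hem
        have hpf : 0 < |f m| := abs_pos.mpr hfm
        have h5 : |e m| - |f m| = |e m| * |f m| * (|f m|⁻¹ - |e m|⁻¹) := by
          field_simp
        rw [h5, abs_mul, abs_of_pos (mul_pos hpe hpf)]
      rw [h4]
      have h6 : |f m| * ‖z‖ = 1 := by
        rw [hzn]
        exact mul_inv_cancel₀ (abs_pos.mpr hfm).ne'
      calc |e m| * |f m| * |‖z‖ - ‖w‖| * ‖z‖ = |e m| * |‖z‖ - ‖w‖| * (|f m| * ‖z‖) := by ring
        _ = |e m| * |‖z‖ - ‖w‖| := by rw [h6, mul_one]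
        _ ≤ 1 * ‖z - w‖ := by
          apply mul_le_mul hem1 (abs_norm_sub_norm_le z w) (abs_nonneg _) zero_le_one
        _ = ‖w - z‖ := by rw [one_mul, norm_sub_rev]
    linarith
  have h7 : δ ^ 2 ≤ 4 * (d * ρ ^ 2) := by
    have h8 : δ ≤ 2 * ‖w - z‖ := hsep.trans hbound
    have h9 : δ ^ 2 ≤ (2 * ‖w - z‖) ^ 2 := pow_le_pow_left₀ hδ.le h8 2
    nlinarith
  have h10 : δ = 2 * (d + 1) * ρ := by rw [hρ]; field_simp
  rw [h10] at h7
  have hdnn : (0 : ℝ) ≤ d := Nat.cast_nonneg d
  have hρ2 : 0 < ρ ^ 2 := by positivity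
  nlinarith [mul_pos hρ2 (by nlinarith : (0 : ℝ) < ((d : ℝ) + 1) ^ 2 - d)]

/-- **Union of `δ`-tubes with `δ`-separated directions.** -/
theorem tubes {c : ℝ} (h : SD c) (hc : 1 ≤ c) (d : ℕ) :
    ∃ κ : ℝ, 0 < κ ∧ ∀ (δ : ℝ), 0 < δ → δ ≤ 1 → ∀ (ι : Type) (I : Finset ι)
      (a e : ι → EuclideanSpace ℝ (Fin (d + 1))), (∀ i ∈ I, ‖e i‖ = 1) →
      (∀ i ∈ I, ∀ j ∈ I, i ≠ j → δ ≤ ‖e i - e j‖) →
      ENNReal.ofReal (κ * δ ^ d * (I.card : ℝ) ^ (1 / c)) ≤
        volume (⋃ i ∈ I, tube δ (a i) (e i)) := by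
  classical
  obtain ⟨S, hS⟩ := h
  have hc0 : 0 < c := by linarith
  have hd1 : (0 : ℝ) < (d : ℝ) + 1 := by positivity
  obtain ⟨η, κ, hη, hκ, hkak⟩ := kakV hS hc d (1 / (2 * (d + 1))) (by positivity)
  set θ : ℝ := min (η / (4 * (d + 1))) (1 / (4 * (d + 1))) with hθ
  have hθpos : 0 < θ := lt_min (by positivity) (by positivity)
  refine ⟨κ * θ ^ d * (1 / (2 * (d + 1))) ^ (1 / c), by positivity, ?_⟩
  intro δ hδ hδ1 ι I a e he hsep
  rcases I.eq_empty_or_nonempty with rfl | hne
  · rw [Finset.card_empty, Nat.cast_zero, Real.zero_rpow (by positivity)]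
    simp
  -- the largest coordinate
  have hmax : ∀ i : ι, ∃ m : Fin (d + 1), ∀ k, |e i k| ≤ |e i m| := by
    intro i
    exact (Finite.exists_max fun k => |e i k|)
  choose M hM using hmax
  have hMlow : ∀ i ∈ I, 1 / ((d : ℝ) + 1) ≤ |e i (M i)| := by
    intro i hi
    have h1 : (1 : ℝ) = ∑ k, |e i k| ^ 2 := by
      have h2 := he i hi
      rw [EuclideanSpace.norm_eq, Real.sqrt_eq_one] at h2
      rw [← h2]
      rfl
    have h3 : ∑ k, |e i k| ^ 2 ≤ ∑ _k : Fin (d + 1), |e i (M i)| ^ 2 :=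
      Finset.sum_le_sum fun k _ => pow_le_pow_left₀ (abs_nonneg _) (hM i k) 2
    rw [← h1, Finset.sum_const, Finset.card_univ, Fintype.card_fin, nsmul_eq_mul] at h3
    push_cast at h3
    have h4 : |e i (M i)| ≤ 1 := by
      have := PiLp.norm_apply_le (e i) (M i)
      rw [he i hi, Real.norm_eq_abs] at this
      exact this
    rw [div_le_iff₀ hd1]
    have h5 : |e i (M i)| ^ 2 ≤ |e i (M i)| := by nlinarith [abs_nonneg (e i (M i))]
    nlinarith
  -- one class of directions
  set cls : ι → Fin (d + 1) × Bool := fun i => (M i, decide (0 < e i (M i))) with hcls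
  obtain ⟨q, -, hq⟩ := Finset.exists_le_card_fiber_of_nsmul_le_card_of_maps_to
    (s := I) (t := (Finset.univ : Finset (Fin (d + 1) × Bool))) (f := cls)
    (b := (I.card : ℝ) / (2 * (d + 1))) (fun i _ => Finset.mem_univ _) ⟨(0, true), Finset.mem_univ _⟩
    (by
      rw [Finset.card_univ, Fintype.card_prod, Fintype.card_fin, Fintype.card_bool, nsmul_eq_mul]
      push_cast
      apply le_of_eq
      field_simp)
  obtain ⟨m, sg⟩ := q
  set I' := I.filter fun i => cls i = (m, sg) with hI'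
  have hI'mem : ∀ i ∈ I', i ∈ I ∧ M i = m ∧ decide (0 < e i (M i)) = sg := by
    intro i hi
    rw [hI', Finset.mem_filter] at hi
    have := hi.2
    simp only [hcls, Prod.mk.injEq] at this
    exact ⟨hi.1, this⟩
  have hI'pos : 0 < I'.card := by
    have h1 : (0 : ℝ) < (I.card : ℝ) / (2 * (d + 1)) := by
      have : (0 : ℝ) < I.card := by exact_mod_cast Finset.card_pos.mpr hne
      positivity
    have h2 := lt_of_lt_of_le h1 hq
    exact_mod_cast h2
  obtain ⟨i₀, hi₀⟩ := Finset.card_pos.mp hI'pos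
  have : Nonempty ι := ⟨i₀⟩
  have hlow : ∀ i ∈ I', 1 / ((d : ℝ) + 1) ≤ |e i m| := by
    intro i hi
    have h1 := hI'mem i hi
    rw [← h1.2.1]
    exact hMlow i h1.1
  have hne0 : ∀ i ∈ I', e i m ≠ 0 := by
    intro i hi h0
    have h1 := hlow i hi
    rw [h0, abs_zero] at h1
    have : (0 : ℝ) < 1 / ((d : ℝ) + 1) := by positivity
    linarith
  have hsgn : ∀ i ∈ I', ∀ j ∈ I', 0 < e i m * e j m := by
    intro i hi j hj
    have h1 := (hI'mem i hi).2.2
    have h2 := (hI'mem j hj).2.2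
    rw [(hI'mem i hi).2.1] at h1
    rw [(hI'mem j hj).2.1] at h2
    have h3 : (0 < e i m) ↔ (0 < e j m) := by
      rw [← decide_eq_decide, h1, h2]
    have h4 := hne0 i hi
    have h5 := hne0 j hj
    rcases lt_or_gt_of_ne h4 with h6 | h6
    · have h7 : e j m < 0 := by
        rcases lt_or_gt_of_ne h5 with h7 | h7
        · exact h7
        · exact absurd (h3.mpr h7) (not_lt.mpr h6.le)
      exact mul_pos_of_neg_of_neg h6 h7
    · exact mul_pos h6 (h3.mp h6)
  set vv : ι → Fin d → ℝ := fun i k => e i (m.succAbove k) / e i m with hvv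
  have hvsep : ∀ i ∈ I', ∀ j ∈ I', i ≠ j → ∃ k, δ / (2 * (d + 1)) ≤ |vv i k - vv j k| := by
    intro i hi j hj hij
    exact slope_sep hδ m (e i) (e j) (he i (hI'mem i hi).1) (he j (hI'mem j hj).1)
      (hsgn i hi j hj) (hsep i (hI'mem i hi).1 j (hI'mem j hj).1 hij)
  have hinj : Set.InjOn vv (I' : Set ι) := by
    intro i hi j hj hij
    by_contra hne'
    obtain ⟨k, hk⟩ := hvsep i hi j hj hne'
    rw [hij, sub_self, abs_zero] at hk
    have : 0 < δ / (2 * ((d : ℝ) + 1)) := by positivity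
    linarith
  set V := I'.image vv with hV
  have hVcard : V.card = I'.card := Finset.card_image_of_injOn hinj
  set g : (Fin d → ℝ) → ι := Function.invFunOn vv (I' : Set ι) with hg
  have hgmem : ∀ v ∈ V, g v ∈ I' ∧ vv (g v) = v := by
    intro v hv
    rw [hV, Finset.mem_image] at hv
    obtain ⟨i, hi, hiv⟩ := hv
    exact ⟨Function.invFunOn_mem ⟨i, hi, hiv⟩, Function.invFunOn_eq ⟨i, hi, hiv⟩⟩
  set δ' : ℝ := θ * δ with hδ'
  have hδ'pos : 0 < δ' := by positivity
  have hδ'η : 2 * δ' / η ≤ δ / (2 * (d + 1)) := by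
    rw [div_le_iff₀ hη, hδ']
    have h1 : θ ≤ η / (4 * (d + 1)) := min_le_left _ _
    calc 2 * (θ * δ) ≤ 2 * (η / (4 * (d + 1)) * δ) := by gcongr
      _ = δ / (2 * (d + 1)) * η := by field_simp; ring
  have hδ'le : ((d : ℝ) + 1) * δ' ≤ δ / 4 := by
    rw [hδ']
    have h1 : θ ≤ 1 / (4 * (d + 1)) := min_le_right _ _
    calc ((d : ℝ) + 1) * (θ * δ) ≤ ((d : ℝ) + 1) * (1 / (4 * (d + 1)) * δ) := by gcongr
      _ = δ / 4 := by field_simp
  have hUm : MeasurableSet (⋃ i ∈ I, tube δ (a i) (e i)) :=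
    Finset.measurableSet_biUnion _ fun i _ => (tube_isClosed _ _ _).measurableSet
  have key := hkak δ' hδ'pos V (fun v k => a (g v) (m.succAbove k) - a (g v) m * v k)
    (fun v => a (g v) m - 1 / (4 * (d + 1)))
    ((eqvj d m).symm ⁻¹' (⋃ i ∈ I, tube δ (a i) (e i)))
    ((eqvj d m).symm.measurable hUm) (by
      intro v hv w hw hvw
      obtain ⟨hv1, hv2⟩ := hgmem v hv
      obtain ⟨hw1, hw2⟩ := hgmem w hw
      have hgne : g v ≠ g w := fun h' => hvw (by rw [← hv2, ← hw2, h'])
      obtain ⟨k, hk⟩ := hvsep (g v) hv1 (g w) hw1 hgne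
      rw [hv2, hw2] at hk
      exact ⟨k, hδ'η.trans hk⟩)
    (by
      intro v hv t ht y hy
      obtain ⟨hv1, hv2⟩ := hgmem v hv
      set i := g v with hi
      have hiI := (hI'mem i hv1).1
      rw [Set.mem_preimage, eqvj_symm, Set.mem_iUnion₂]
      refine ⟨i, hiI, ?_⟩
      have hem := hne0 i hv1
      set s : ℝ := (t - a i m) / e i m with hs
      refine near_axis (a i) (e i) _ (he i hiI) s (((d : ℝ) + 1) * δ') ?_ (by linarith) ?_
      · have h1 : |t - a i m| ≤ 1 / (4 * (d + 1)) := by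
          rw [abs_le]
          have h2 := ht.1
          have h3 := ht.2
          have h4 : (1 : ℝ) / (2 * (d + 1)) = 1 / (4 * (d + 1)) + 1 / (4 * (d + 1)) := by
            field_simp; norm_num
          simp only at h2 h3
          constructor <;> linarith
        have h5 := hlow i hv1
        have h6 : |s| ≤ 1 / 4 := by
          rw [hs, abs_div, div_le_iff₀ (abs_pos.mpr hem)]
          calc |t - a i m| ≤ 1 / (4 * (d + 1)) := h1
            _ = 1 / 4 * (1 / (d + 1)) := by field_simp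
            _ ≤ 1 / 4 * |e i m| := by gcongr
        linarith
      · have hcoord0 : (a i + s • e i) m = t := by
          simp only [PiLp.add_apply, PiLp.smul_apply, smul_eq_mul]
          rw [hs, div_mul_cancel₀ _ hem]; ring
        have hcoord : ∀ k : Fin d, (a i + s • e i) (m.succAbove k) =
            a i (m.succAbove k) - a i m * v k + t * v k := by
          intro k
          have h1 : v k = e i (m.succAbove k) / e i m := by
            conv_lhs => rw [← hv2]
          simp only [PiLp.add_apply, PiLp.smul_apply, smul_eq_mul]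
          rw [h1, hs]
          field_simp
          ring
        rw [EuclideanSpace.norm_eq]
        apply Real.sqrt_le_iff.mpr
        refine ⟨by positivity, ?_⟩
        rw [Fin.sum_univ_succAbove _ m]
        have e0 : (WithLp.toLp 2 (m.insertNth (α := fun _ => ℝ) t y) - (a i + s • e i) :
            EuclideanSpace ℝ (Fin (d + 1))) m = 0 := by
          rw [PiLp.sub_apply, hcoord0, PiLp.toLp_apply, Fin.insertNth_apply_same, sub_self]
        have es : ∀ k : Fin d, (WithLp.toLp 2 (m.insertNth (α := fun _ => ℝ) t y)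
            - (a i + s • e i) : EuclideanSpace ℝ (Fin (d + 1))) (m.succAbove k) =
            y k - (a i (m.succAbove k) - a i m * v k + t * v k) := by
          intro k
          rw [PiLp.sub_apply, hcoord, PiLp.toLp_apply, Fin.insertNth_apply_succAbove]
        rw [e0, norm_zero]
        simp only [es]
        have h1 : ∑ k : Fin d, ‖y k - (a i (m.succAbove k) - a i m * v k + t * v k)‖ ^ 2 ≤
            d * δ' ^ 2 := by
          calc _ ≤ ∑ _k : Fin d, δ' ^ 2 := by
                refine Finset.sum_le_sum fun k _ => ?_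
                rw [Real.norm_eq_abs]
                exact pow_le_pow_left₀ (abs_nonneg _) (hy k) 2
            _ = d * δ' ^ 2 := by
              rw [Finset.sum_const, Finset.card_univ, Fintype.card_fin, nsmul_eq_mul]
        have hdnn : (0 : ℝ) ≤ d := Nat.cast_nonneg d
        have h2 : 0 < δ' ^ 2 := by positivity
        nlinarith)
  rw [(eqvj_mp d m).symm.measure_preimage_equiv] at key
  refine le_trans ?_ key
  apply ENNReal.ofReal_le_ofReal
  rw [hVcard, hδ', mul_pow]
  have h1 : (I.card : ℝ) ^ (1 / c) * (1 / (2 * (d + 1))) ^ (1 / c) ≤ (I'.card : ℝ) ^ (1 / c) := by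
    rw [← Real.mul_rpow (Nat.cast_nonneg _) (by positivity)]
    apply Real.rpow_le_rpow (by positivity) _ (by positivity)
    rw [mul_one_div]
    exact hq
  calc κ * θ ^ d * (1 / (2 * (d + 1))) ^ (1 / c) * δ ^ d * (I.card : ℝ) ^ (1 / c)
      = κ * (θ ^ d * δ ^ d) * ((I.card : ℝ) ^ (1 / c) * (1 / (2 * (d + 1))) ^ (1 / c)) := by ring
    _ ≤ _ := by gcongr

end Pool.Agent.W46.KK
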