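import Mathlib

/-!
# From the arithmetic sums-differences inequality to rounded families of lines

`SDS S c` is the sums-differences inequality with exponent `c` for the finite set of slopes
`S` (and the slope `∞`), in the shape of the arithmetic Kakeya conjecture of Green and Ruzsa.
-/

open Finset

namespace Pool.Agent.W46.KK

/-- The sums-differences inequality with exponent `c` for the slopes `S` and `∞`. -/
def SDS (S : Finset ℚ) (c : ℝ) : Prop :=
  (-1 : ℚ) ∉ S ∧ ∀ A : Finset (ℤ × ℤ),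
    ((A.image (fun p : ℤ × ℤ => (p.1 : ℚ) + (-1) * (p.2 : ℚ))).card : ℝ) ≤
      (max ((A.image (fun p : ℤ × ℤ => (p.2 : ℚ))).card : ℝ)
        ((S.sup (fun r : ℚ =>
          (A.image (fun p : ℤ × ℤ => (p.1 : ℚ) + r * (p.2 : ℚ))).card) : ℕ) : ℝ)) ^ c

/-- The sums-differences inequality with exponent `c` for some finite set of slopes. -/
def SD (c : ℝ) : Prop := ∃ S : Finset ℚ, SDS S c

/-- an additive map `ℤ^d → ℤ` that is injective on a given finite set -/
theorem exists_hom {d : ℕ} (D : Finset (Fin d → ℤ)) :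
    ∃ M : ℤ, ∀ z ∈ D, ∀ w ∈ D, ∑ i, z i * M ^ (i : ℕ) = ∑ i, w i * M ^ (i : ℕ) → z = w := by
  classical
  set P : (Fin d → ℤ) → Polynomial ℤ := fun z => ∑ i, Polynomial.C (z i) * Polynomial.X ^ (i : ℕ)
    with hP
  have hcoeff : ∀ z (j : Fin d), (P z).coeff j = z j := by
    intro z j
    simp only [hP, Polynomial.finsetSum_coeff, Polynomial.coeff_C_mul, Polynomial.coeff_X_pow]
    rw [Finset.sum_eq_single j]
    · simp
    · intro i _ hi
      rw [if_neg]
      · simp
      · intro h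
        exact hi (Fin.ext h.symm)
    · simp
  have hne : ∀ z, z ≠ 0 → P z ≠ 0 := by
    intro z hz h0
    apply hz
    funext j
    rw [← hcoeff z j, h0]
    simp
  set Q : Polynomial ℤ := ∏ z ∈ D, ∏ w ∈ D, if z = w then 1 else P (z - w) with hQ
  have hQ0 : Q ≠ 0 := by
    rw [hQ]
    refine Finset.prod_ne_zero_iff.mpr fun z _ => Finset.prod_ne_zero_iff.mpr fun w _ => ?_
    split_ifs with h
    · exact one_ne_zero
    · exact hne _ (sub_ne_zero.mpr h)
  obtain ⟨M, hM⟩ : ∃ M : ℤ, Q.eval M ≠ 0 := by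
    by_contra hcon
    push Not at hcon
    apply hQ0
    apply Polynomial.eq_zero_of_infinite_isRoot
    have : {x : ℤ | Q.IsRoot x} = Set.univ := by
      ext x; simp [Polynomial.IsRoot, hcon x]
    rw [this]
    exact Set.infinite_univ
  refine ⟨M, fun z hz w hw h => ?_⟩
  by_contra hzw
  rw [hQ, Polynomial.eval_prod] at hM
  have h1 := Finset.prod_ne_zero_iff.mp hM z hz
  rw [Polynomial.eval_prod] at h1
  have h2 := Finset.prod_ne_zero_iff.mp h1 w hw
  rw [if_neg hzw] at h2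
  apply h2
  simp only [hP, Polynomial.eval_finsetSum, Polynomial.eval_mul, Polynomial.eval_C,
    Polynomial.eval_pow, Polynomial.eval_X, Pi.sub_apply, sub_mul, Finset.sum_sub_distrib, h,
    sub_self]

/-- The sums-differences inequality for pairs of integer vectors indexed by a finite set. -/
theorem sd_vec {S : Finset ℚ} {c : ℝ} (h : SDS S c) (hc : 0 ≤ c) {d : ℕ} {ι : Type}
    (V : Finset ι) (x y : ι → Fin d → ℤ)
    (hinj : ∀ v ∈ V, ∀ w ∈ V, x v - y v = x w - y w → v = w) (B : ℝ)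
    (hB0 : ((V.image y).card : ℝ) ≤ B)
    (hB : ∀ r ∈ S, ((V.image fun v => fun i => (x v i : ℚ) + r * (y v i : ℚ)).card : ℝ) ≤ B) :
    (V.card : ℝ) ≤ B ^ c := by
  classical
  obtain ⟨M, hM⟩ := exists_hom (V.image fun v => x v - y v)
  set φ : (Fin d → ℤ) → ℤ := fun z => ∑ i, z i * M ^ (i : ℕ) with hφ
  have hsub : ∀ z w, φ z - φ w = φ (z - w) := by
    intro z w
    simp only [hφ, Pi.sub_apply, sub_mul, Finset.sum_sub_distrib]
  set A : Finset (ℤ × ℤ) := V.image fun v => (φ (x v), φ (y v)) with hA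
  have key := h.2 A
  have h1 : V.card = (A.image (fun p : ℤ × ℤ => (p.1 : ℚ) + (-1) * (p.2 : ℚ))).card := by
    rw [hA, Finset.image_image]
    symm
    apply Finset.card_image_of_injOn
    intro v hv w hw hvw
    simp only [Function.comp] at hvw
    have h2 : ((φ (x v) - φ (y v) : ℤ) : ℚ) = ((φ (x w) - φ (y w) : ℤ) : ℚ) := by
      push_cast
      linarith
    have h3 : φ (x v) - φ (y v) = φ (x w) - φ (y w) := by exact_mod_cast h2
    rw [hsub, hsub] at h3
    exact hinj v hv w hw (hM _ (Finset.mem_image_of_mem _ hv) _ (Finset.mem_image_of_mem _ hw) h3)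
  rw [← h1] at key
  have hBnn : 0 ≤ B := le_trans (Nat.cast_nonneg _) hB0
  refine key.trans (Real.rpow_le_rpow (le_max_of_le_left (Nat.cast_nonneg _)) (max_le ?_ ?_) hc)
  · refine le_trans ?_ hB0
    norm_cast
    have : A.image (fun p : ℤ × ℤ => (p.2 : ℚ)) = (V.image y).image (fun z => (φ z : ℚ)) := by
      rw [hA, Finset.image_image, Finset.image_image]
      rfl
    rw [this]
    exact Finset.card_image_le
  · have hsup : ∀ T : Finset ℚ, T ⊆ S → (((T.sup (fun r : ℚ =>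
          (A.image (fun p : ℤ × ℤ => (p.1 : ℚ) + r * (p.2 : ℚ))).card)) : ℕ) : ℝ) ≤ B := by
      intro T hT
      have hne : (((T.sup (fun r : ℚ =>
          (A.image (fun p : ℤ × ℤ => (p.1 : ℚ) + r * (p.2 : ℚ))).card)) : ℕ)) ≤ ⌊B⌋₊ := by
        apply Finset.sup_le
        intro r hr
        apply Nat.le_floor
        refine le_trans ?_ (hB r (hT hr))
        norm_cast
        have : A.image (fun p : ℤ × ℤ => (p.1 : ℚ) + r * (p.2 : ℚ)) =
            (V.image fun v => fun i => (x v i : ℚ) + r * (y v i : ℚ)).image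
              (fun z : Fin d → ℚ => ∑ i, z i * (M : ℚ) ^ (i : ℕ)) := by
          rw [hA, Finset.image_image, Finset.image_image]
          apply Finset.image_congr
          intro v _
          simp only [Function.comp, hφ]
          push_cast
          rw [Finset.mul_sum, ← Finset.sum_add_distrib]
          refine Finset.sum_congr rfl fun i _ => ?_
          ring
        rw [this]
        exact Finset.card_image_le
      exact (Nat.le_floor_iff hBnn).mp hne
    exact hsup S (Finset.Subset.refl S)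

/-- rounding down to the grid of step `δ` -/
noncomputable def fl {d : ℕ} (δ : ℝ) (x : Fin d → ℝ) : Fin d → ℤ := fun i => ⌊x i / δ⌋

/-- the positions at time `t` of the family of lines `p v + t v`, rounded to the grid -/
noncomputable def pos {d : ℕ} (δ : ℝ) (p : (Fin d → ℝ) → Fin d → ℝ) (t : ℝ) (v : Fin d → ℝ) :
    Fin d → ℤ := fl δ (fun i => p v i + t * v i)

/-- size of the set of offsets for the slope `r` -/
def offs (r : ℚ) : ℤ := (r.den : ℤ) + |r.num| + |(r.den : ℤ) + r.num|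

theorem offs_nonneg (r : ℚ) : 0 ≤ offs r := by unfold offs; positivity

theorem card_slope {d : ℕ} {δ : ℝ} (hδ : 0 < δ) (V : Finset (Fin d → ℝ))
    (p : (Fin d → ℝ) → Fin d → ℝ) (t₀ η : ℝ) (r : ℚ) (hr : r ≠ -1) :
    ((V.image fun v => fun i => ((pos δ p t₀ v i : ℤ) : ℚ) + r * ((pos δ p (t₀ + η) v i : ℤ) : ℚ)).card : ℝ)
      ≤ ((2 * offs r + 1 : ℤ) : ℝ) ^ d *
        ((V.image (pos δ p (t₀ + (r : ℝ) / (1 + r) * η))).card : ℝ) := by
  classical
  have hr1 : (1 + (r : ℝ)) ≠ 0 := by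
    intro h
    apply hr
    have : (r : ℝ) = ((-1 : ℚ) : ℝ) := by push_cast; linarith
    exact_mod_cast this
  have hden : (0 : ℝ) < r.den := by exact_mod_cast r.den_pos
  have hdenQ : (0 : ℚ) < r.den := by exact_mod_cast r.den_pos
  have hrnum : (r : ℝ) * r.den = r.num := by
    have := Rat.mul_den_eq_num r
    exact_mod_cast this
  set tr := t₀ + (r : ℝ) / (1 + r) * η with htr
  -- the offset
  set off : (Fin d → ℝ) → Fin d → ℤ := fun v i =>
    (r.den : ℤ) * pos δ p t₀ v i + r.num * pos δ p (t₀ + η) v i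
      - ((r.den : ℤ) + r.num) * pos δ p tr v i with hoff
  have hofflt : ∀ v i, |off v i| ≤ offs r := by
    intro v i
    set a : ℝ := (p v i + t₀ * v i) / δ with ha
    set b : ℝ := (p v i + (t₀ + η) * v i) / δ with hb
    set e : ℝ := (p v i + tr * v i) / δ with he
    have hlin : (r.den : ℝ) * a + r.num * b = ((r.den : ℝ) + r.num) * e := by
      rw [← hrnum, ha, hb, he, htr]
      field_simp
      ring
    have e1 : (⌊a⌋ : ℝ) ≤ a := Int.floor_le a
    have e2 : a < ⌊a⌋ + 1 := Int.lt_floor_add_one a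
    have e3 : (⌊b⌋ : ℝ) ≤ b := Int.floor_le b
    have e4 : b < ⌊b⌋ + 1 := Int.lt_floor_add_one b
    have e5 : (⌊e⌋ : ℝ) ≤ e := Int.floor_le e
    have e6 : e < ⌊e⌋ + 1 := Int.lt_floor_add_one e
    have hval : (off v i : ℝ) = -(r.den : ℝ) * (a - ⌊a⌋) - r.num * (b - ⌊b⌋)
        + ((r.den : ℝ) + r.num) * (e - ⌊e⌋) := by
      simp only [hoff, pos, fl]
      push_cast
      rw [← ha, ← hb, ← he]
      linarith [hlin]
    have hle : |(off v i : ℝ)| ≤ (offs r : ℝ) := by
      rw [hval]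
      unfold offs
      push_cast
      have f1 : |(-(r.den : ℝ)) * (a - ⌊a⌋)| ≤ r.den := by
        rw [abs_mul, abs_neg, abs_of_pos hden]
        have : |a - ⌊a⌋| ≤ 1 := abs_le.mpr ⟨by linarith, by linarith⟩
        nlinarith
      have f2 : |(r.num : ℝ) * (b - ⌊b⌋)| ≤ |(r.num : ℝ)| := by
        rw [abs_mul]
        have : |b - ⌊b⌋| ≤ 1 := abs_le.mpr ⟨by linarith, by linarith⟩
        nlinarith [abs_nonneg (r.num : ℝ)]
      have f3 : |((r.den : ℝ) + r.num) * (e - ⌊e⌋)| ≤ |(r.den : ℝ) + r.num| := by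
        rw [abs_mul]
        have : |e - ⌊e⌋| ≤ 1 := abs_le.mpr ⟨by linarith, by linarith⟩
        nlinarith [abs_nonneg ((r.den : ℝ) + r.num)]
      calc |-(r.den : ℝ) * (a - ⌊a⌋) - r.num * (b - ⌊b⌋) + ((r.den : ℝ) + r.num) * (e - ⌊e⌋)|
          ≤ |-(r.den : ℝ) * (a - ⌊a⌋) - r.num * (b - ⌊b⌋)|
            + |((r.den : ℝ) + r.num) * (e - ⌊e⌋)| := abs_add_le _ _
        _ ≤ (|-(r.den : ℝ) * (a - ⌊a⌋)| + |r.num * (b - ⌊b⌋)|)
            + |((r.den : ℝ) + r.num) * (e - ⌊e⌋)| := by gcongr; exact abs_sub _ _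
        _ ≤ _ := by linarith
    exact_mod_cast hle
  -- the values are determined by the position at time `tr` and the offset
  set T : Finset (Fin d → ℤ) := Fintype.piFinset fun _ => Finset.Icc (-offs r) (offs r) with hT
  have hTcard : (T.card : ℝ) = ((2 * offs r + 1 : ℤ) : ℝ) ^ d := by
    rw [hT, Fintype.card_piFinset, Finset.prod_const, Finset.card_univ, Fintype.card_fin,
      Int.card_Icc]
    push_cast
    congr 1
    have h0 : 0 ≤ offs r + 1 - -offs r := by have := offs_nonneg r; omega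
    have h1 : (((offs r + 1 - -offs r).toNat : ℤ) : ℝ) = ((offs r + 1 - -offs r : ℤ) : ℝ) := by
      rw [Int.toNat_of_nonneg h0]
    rw [Int.cast_natCast] at h1
    rw [h1]
    push_cast
    ring
  have hsubset : (V.image fun v => fun i => ((pos δ p t₀ v i : ℤ) : ℚ)
        + r * ((pos δ p (t₀ + η) v i : ℤ) : ℚ)) ⊆
      (T ×ˢ V.image (pos δ p tr)).image fun q => fun i =>
        ((q.1 i : ℚ) + ((r.den : ℚ) + r.num) * (q.2 i : ℚ)) / r.den := by
    intro z hz
    rw [Finset.mem_image] at hz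
    obtain ⟨v, hv, rfl⟩ := hz
    rw [Finset.mem_image]
    refine ⟨(off v, pos δ p tr v), ?_, ?_⟩
    · rw [Finset.mem_product]
      refine ⟨?_, Finset.mem_image_of_mem _ hv⟩
      rw [hT, Fintype.mem_piFinset]
      intro i
      rw [Finset.mem_Icc]
      exact abs_le.mp (hofflt v i)
    · funext i
      have hrQ : r * r.den = r.num := Rat.mul_den_eq_num r
      simp only [hoff]
      push_cast
      rw [← hrQ]
      field_simp
      ring
  calc ((V.image fun v => fun i => ((pos δ p t₀ v i : ℤ) : ℚ)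
        + r * ((pos δ p (t₀ + η) v i : ℤ) : ℚ)).card : ℝ)
      ≤ (((T ×ˢ V.image (pos δ p tr)).image fun q => fun i =>
        ((q.1 i : ℚ) + ((r.den : ℚ) + r.num) * (q.2 i : ℚ)) / r.den).card : ℝ) := by
        exact_mod_cast Finset.card_le_card hsubset
    _ ≤ ((T ×ˢ V.image (pos δ p tr)).card : ℝ) := by exact_mod_cast Finset.card_image_le
    _ = _ := by rw [Finset.card_product, Nat.cast_mul, hTcard]

/-- separated directions give distinct differences of rounded positions -/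
theorem pos_inj {d : ℕ} {δ : ℝ} (hδ : 0 < δ) (p : (Fin d → ℝ) → Fin d → ℝ) (t₀ η : ℝ) (hη : 0 < η)
    (v w : Fin d → ℝ) (hvw : ∃ i, 2 * δ / η ≤ |v i - w i|)
    (h : pos δ p t₀ v - pos δ p (t₀ + η) v = pos δ p t₀ w - pos δ p (t₀ + η) w) : False := by
  obtain ⟨i, hi⟩ := hvw
  have h1 := congrFun h i
  simp only [Pi.sub_apply, pos, fl] at h1
  set a := (p v i + t₀ * v i) / δ
  set b := (p v i + (t₀ + η) * v i) / δ
  set a' := (p w i + t₀ * w i) / δ
  set b' := (p w i + (t₀ + η) * w i) / δ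
  have h2 : (⌊a⌋ : ℝ) - ⌊b⌋ = ⌊a'⌋ - ⌊b'⌋ := by exact_mod_cast h1
  have e1 : (⌊a⌋ : ℝ) ≤ a := Int.floor_le a
  have e2 : a < ⌊a⌋ + 1 := Int.lt_floor_add_one a
  have e3 : (⌊b⌋ : ℝ) ≤ b := Int.floor_le b
  have e4 : b < ⌊b⌋ + 1 := Int.lt_floor_add_one b
  have e1' : (⌊a'⌋ : ℝ) ≤ a' := Int.floor_le a'
  have e2' : a' < ⌊a'⌋ + 1 := Int.lt_floor_add_one a'
  have e3' : (⌊b'⌋ : ℝ) ≤ b' := Int.floor_le b'
  have e4' : b' < ⌊b'⌋ + 1 := Int.lt_floor_add_one b'
  have hab : a - b = -(η * v i) / δ := by simp only [a, b]; ring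
  have hab' : a' - b' = -(η * w i) / δ := by simp only [a', b']; ring
  have h3 : |η * (v i - w i) / δ| < 2 := by
    have : η * (v i - w i) / δ = (a' - b') - (a - b) := by rw [hab, hab']; ring
    rw [this, abs_lt]
    constructor <;> linarith
  rw [abs_div, abs_mul, abs_of_pos hη, abs_of_pos hδ, div_lt_iff₀ hδ] at h3
  rw [div_le_iff₀ hη] at hi
  nlinarith

/-- **Core estimate.** -/
theorem core {S : Finset ℚ} {c : ℝ} (h : SDS S c) (hc : 0 ≤ c) (d : ℕ) :
    ∃ C : ℝ, 1 ≤ C ∧ ∀ (δ : ℝ), 0 < δ → ∀ (V : Finset (Fin d → ℝ)) (p : (Fin d → ℝ) → Fin d → ℝ)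
      (t₀ η : ℝ), 0 < η →
      (∀ v ∈ V, ∀ w ∈ V, v ≠ w → ∃ i, 2 * δ / η ≤ |v i - w i|) → ∀ B : ℝ,
      ((V.image (pos δ p (t₀ + η))).card : ℝ) ≤ B →
      (∀ r ∈ S, ((V.image (pos δ p (t₀ + (r : ℝ) / (1 + r) * η))).card : ℝ) ≤ B) →
      (V.card : ℝ) ≤ (C * B) ^ c := by
  classical
  set C : ℝ := 1 + ∑ r ∈ S, ((2 * offs r + 1 : ℤ) : ℝ) ^ d with hC
  have hpos : ∀ r : ℚ, (0 : ℝ) ≤ ((2 * offs r + 1 : ℤ) : ℝ) ^ d := by
    intro r
    have : (0 : ℝ) ≤ ((2 * offs r + 1 : ℤ) : ℝ) := by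
      have := offs_nonneg r
      exact_mod_cast (by omega : (0 : ℤ) ≤ 2 * offs r + 1)
    positivity
  have hsum : 0 ≤ ∑ r ∈ S, ((2 * offs r + 1 : ℤ) : ℝ) ^ d := Finset.sum_nonneg fun r _ => hpos r
  have hC1 : 1 ≤ C := by rw [hC]; linarith
  refine ⟨C, hC1, ?_⟩
  intro δ hδ V p t₀ η hη hsep B hB0 hB
  have hBnn : 0 ≤ B := le_trans (Nat.cast_nonneg _) hB0
  refine sd_vec h hc V (pos δ p t₀) (pos δ p (t₀ + η)) ?_ (C * B) ?_ ?_
  · intro v hv w hw hvw
    by_contra hne
    exact pos_inj hδ p t₀ η hη v w (hsep v hv w hw hne) hvw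
  · refine hB0.trans ?_
    nlinarith
  · intro r hr
    have hr1 : r ≠ -1 := fun h' => h.1 (h' ▸ hr)
    refine (card_slope hδ V p t₀ η r hr1).trans ?_
    have h1 : ((2 * offs r + 1 : ℤ) : ℝ) ^ d ≤ C := by
      rw [hC]
      have := Finset.single_le_sum (f := fun r : ℚ => ((2 * offs r + 1 : ℤ) : ℝ) ^ d)
        (fun r _ => hpos r) hr
      linarith
    exact mul_le_mul h1 (hB r hr) (Nat.cast_nonneg _) (by linarith)

end Pool.Agent.W46.KK
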