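import Pool.Agent.W46.KK.Kak

/-!
# Kakeya sets in `ℝ^n` and progressions: final forms
-/

open Finset MeasureTheory Set Filter Topology
open scoped ENNReal

namespace Pool.Agent.W46.KK

/-- `K` contains a unit segment in every direction. -/
def HasSegments {n : ℕ} (K : Set (EuclideanSpace ℝ (Fin n))) : Prop :=
  ∀ e : EuclideanSpace ℝ (Fin n), ‖e‖ = 1 → ∃ a : EuclideanSpace ℝ (Fin n),
    ∀ t ∈ Set.Icc (0 : ℝ) 1, a + t • e ∈ K

/-- coordinates: height and the rest -/
noncomputable def eqv (d : ℕ) : EuclideanSpace ℝ (Fin (d + 1)) ≃ᵐ ℝ × (Fin d → ℝ) :=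
  (MeasurableEquiv.toLp 2 (Fin (d + 1) → ℝ)).symm.trans
    (MeasurableEquiv.piFinSuccAbove (fun _ => ℝ) 0)

theorem eqv_mp (d : ℕ) : MeasurePreserving (eqv d) volume volume :=
  (EuclideanSpace.volume_preserving_symm_measurableEquiv_toLp (Fin (d + 1))).trans
    (volume_preserving_piFinSuccAbove (fun _ => ℝ) 0)

theorem eqv_symm (d : ℕ) (t : ℝ) (y : Fin d → ℝ) :
    (eqv d).symm (t, y) = WithLp.toLp 2 (Fin.cons t y) := by
  apply (eqv d).injective
  rw [MeasurableEquiv.apply_symm_apply]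
  rfl

theorem kakeya_volume {c : ℝ} (h : SD c) (hc : 1 ≤ c) (d : ℕ) :
    ∃ κ : ℝ, 0 < κ ∧ ∀ K : Set (EuclideanSpace ℝ (Fin (d + 1))), HasSegments K →
      ∀ δ : ℝ, 0 < δ →
        ENNReal.ofReal (κ * δ ^ ((d : ℝ) - d / c)) ≤ volume (Metric.thickening δ K) := by
  obtain ⟨κ, hκ, hkak⟩ := kak h hc d (1 / (d + 1)) (by positivity)
  refine ⟨κ * (1 / ((d : ℝ) + 1)) ^ ((d : ℝ) - d / c), by positivity, ?_⟩
  intro K hK r hr
  have hd1 : (0 : ℝ) < (d : ℝ) + 1 := by positivity
  set δ : ℝ := r / (d + 1) with hδ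
  have hδpos : 0 < δ := by positivity
  -- the vector `(1, v)`
  set w : (Fin d → ℝ) → EuclideanSpace ℝ (Fin (d + 1)) := fun v => WithLp.toLp 2 (Fin.cons 1 v)
    with hw
  have hw0 : ∀ v, (w v) 0 = 1 := fun v => rfl
  have hws : ∀ v i, (w v) (Fin.succ i) = v i := fun v i => rfl
  have hnorm1 : ∀ v, 1 ≤ ‖w v‖ := by
    intro v
    have := PiLp.norm_apply_le (w v) 0
    rw [hw0] at this
    simpa using this
  have hex : ∀ v : Fin d → ℝ, ∃ a : EuclideanSpace ℝ (Fin (d + 1)),
      ∀ t ∈ Set.Icc (0 : ℝ) 1, a + t • (‖w v‖⁻¹ • w v) ∈ K := by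
    intro v
    apply hK
    rw [norm_smul, norm_inv, norm_norm]
    exact inv_mul_cancel₀ (by have := hnorm1 v; positivity)
  choose a ha using hex
  have key := hkak δ hδpos (fun v i => a v (Fin.succ i) - a v 0 * v i) (fun v => a v 0)
    ((eqv d).symm ⁻¹' Metric.thickening r K)
    ((eqv d).symm.measurable Metric.isOpen_thickening.measurableSet) (by
      intro v hv t ht y hy
      have hnle : ‖w v‖ ≤ d + 1 := by
        rw [EuclideanSpace.norm_eq]
        apply Real.sqrt_le_iff.mpr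
        refine ⟨by positivity, ?_⟩
        rw [Fin.sum_univ_succ]
        have h1 : ∑ i : Fin d, ‖(w v) (Fin.succ i)‖ ^ 2 ≤ ∑ _i : Fin d, (1 : ℝ) := by
          refine Finset.sum_le_sum fun i _ => ?_
          rw [hws, Real.norm_eq_abs, sq_abs]
          have := hv i
          nlinarith
        rw [Finset.sum_const, Finset.card_univ, Fintype.card_fin, nsmul_eq_mul, mul_one] at h1
        rw [hw0]
        have hdnn : (0 : ℝ) ≤ d := Nat.cast_nonneg d
        simp only [norm_one, one_pow]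
        nlinarith
      rw [Set.mem_preimage, eqv_symm, Metric.mem_thickening_iff]
      refine ⟨a v + (t - a v 0) • w v, ?_, ?_⟩
      · have h2 := ha v ((t - a v 0) * ‖w v‖) ⟨by
            have := ht.1
            have := hnorm1 v
            exact mul_nonneg (by linarith) (by linarith), by
            have h3 : t - a v 0 ≤ 1 / (d + 1) := by linarith [ht.2]
            calc (t - a v 0) * ‖w v‖ ≤ 1 / (d + 1) * (d + 1) := by
                  apply mul_le_mul h3 hnle (norm_nonneg _) (by positivity)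
              _ = 1 := by field_simp⟩
        rw [smul_smul, mul_assoc, mul_inv_cancel₀ (by have := hnorm1 v; positivity), mul_one] at h2
        exact h2
      · rw [EuclideanSpace.dist_eq, Fin.sum_univ_succ]
        have e0 : (a v + (t - a v 0) • w v) 0 = t := by
          simp only [PiLp.add_apply, PiLp.smul_apply, smul_eq_mul, hw0]
          ring
        have es : ∀ i : Fin d, (a v + (t - a v 0) • w v) (Fin.succ i)
            = (a v (Fin.succ i) - a v 0 * v i) + t * v i := by
          intro i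
          simp only [PiLp.add_apply, PiLp.smul_apply, smul_eq_mul, hws]
          ring
        rw [e0]
        simp only [es]
        have hsum : ∑ i : Fin d, dist (y i) (a v (Fin.succ i) - a v 0 * v i + t * v i) ^ 2
            ≤ d * δ ^ 2 := by
          calc _ ≤ ∑ _i : Fin d, δ ^ 2 := by
                refine Finset.sum_le_sum fun i _ => ?_
                have := hy i
                rw [Real.dist_eq]
                exact pow_le_pow_left₀ (abs_nonneg _) this 2
            _ = d * δ ^ 2 := by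
              rw [Finset.sum_const, Finset.card_univ, Fintype.card_fin, nsmul_eq_mul]
        have hlt : (d : ℝ) * δ ^ 2 < r ^ 2 := by
          rw [hδ, div_pow, ← mul_div_assoc, div_lt_iff₀ (by positivity)]
          have hdnn : (0 : ℝ) ≤ d := Nat.cast_nonneg d
          have hr2 : 0 < r ^ 2 := by positivity
          nlinarith [mul_pos hr2 (by nlinarith : (0 : ℝ) < ((d : ℝ) + 1) ^ 2 - d)]
        calc _ ≤ √((d : ℝ) * δ ^ 2) := by
              apply Real.sqrt_le_sqrt
              simp only [Fin.cons_zero, Fin.cons_succ, dist_self]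
              linarith
          _ < r := by
              rw [Real.sqrt_lt' hr]
              exact hlt)
  rw [(eqv_mp d).symm.measure_preimage_equiv] at key
  refine le_trans (le_of_eq ?_) key
  congr 1
  rw [hδ, div_eq_mul_one_div r, Real.mul_rpow hr.le (by positivity)]
  ring

/-- The lower Minkowski dimension `n - limsup_{δ → 0+} log |N_δ K| / log δ`. -/
noncomputable def lowerMinkowski {n : ℕ} (K : Set (EuclideanSpace ℝ (Fin n))) : ℝ :=
  n - limsup (fun δ : ℝ => Real.log (volume (Metric.thickening δ K)).toReal / Real.log δ) (𝓝[>] 0)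

theorem kakeya_dim {c : ℝ} (h : SD c) (hc : 1 ≤ c) {n : ℕ} (hn : 1 ≤ n)
    (K : Set (EuclideanSpace ℝ (Fin n))) (hK : IsCompact K) (hseg : HasSegments K) :
    1 + ((n : ℝ) - 1) / c ≤ lowerMinkowski K := by
  obtain ⟨d, rfl⟩ : ∃ d, n = d + 1 := ⟨n - 1, by omega⟩
  obtain ⟨κ, hκ, hvol⟩ := kakeya_volume h hc d
  have hv := hvol K hseg
  have hfin : ∀ δ : ℝ, volume (Metric.thickening δ K) ≠ ⊤ := fun δ =>
    (hK.isBounded.thickening (δ := δ)).measure_lt_top.ne
  have hreal : ∀ δ : ℝ, 0 < δ →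
      κ * δ ^ ((d : ℝ) - d / c) ≤ (volume (Metric.thickening δ K)).toReal := by
    intro δ hδ
    exact (ENNReal.ofReal_le_iff_le_toReal (hfin δ)).mp (hv δ hδ)
  unfold lowerMinkowski
  suffices hsup : limsup (fun δ : ℝ =>
      Real.log (volume (Metric.thickening δ K)).toReal / Real.log δ) (𝓝[>] 0)
      ≤ (d : ℝ) - d / c by
    push_cast
    have : 1 + ((d : ℝ) + 1 - 1) / c = (d : ℝ) + 1 - ((d : ℝ) - d / c) := by ring
    rw [this]
    linarith
  have hlog : Tendsto Real.log (𝓝[>] 0) atBot := Real.tendsto_log_nhdsGT_zero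
  have hsmall : ∀ᶠ δ : ℝ in 𝓝[>] (0 : ℝ), 0 < δ ∧ δ < 1 := by
    have : Set.Ioo (0 : ℝ) 1 ∈ 𝓝[>] (0 : ℝ) := Ioo_mem_nhdsGT one_pos
    exact this
  refine le_of_forall_pos_le_add fun ε hε => ?_
  refine limsup_le_of_le ?_ ?_
  · -- bounded below
    set M : ℝ := (volume (Metric.thickening 1 K)).toReal with hM
    refine IsCoboundedUnder.of_frequently_ge (a := -1) (Eventually.frequently ?_)
    have h1 : ∀ᶠ δ : ℝ in 𝓝[>] (0 : ℝ), Real.log δ < -(|Real.log M| + 1) :=
      hlog.eventually (eventually_lt_atBot _)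
    filter_upwards [h1, hsmall] with δ h1 h2
    have hneg : Real.log δ < 0 := by have := abs_nonneg (Real.log M); linarith
    rw [le_div_iff_of_neg hneg]
    have h3 : (volume (Metric.thickening δ K)).toReal ≤ M := by
      rw [hM]
      exact ENNReal.toReal_mono (hfin 1) (measure_mono (Metric.thickening_mono h2.2.le K))
    have h4 : 0 < (volume (Metric.thickening δ K)).toReal := by
      refine lt_of_lt_of_le ?_ (hreal δ h2.1)
      have := h2.1
      positivity
    have h5 := Real.log_le_log h4 h3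
    have := le_abs_self (Real.log M)
    linarith
  · have h1 : ∀ᶠ δ : ℝ in 𝓝[>] (0 : ℝ), Real.log δ < -(|Real.log κ| / ε + 1) :=
      hlog.eventually (eventually_lt_atBot _)
    filter_upwards [h1, hsmall] with δ h1 h2
    have habs : 0 ≤ |Real.log κ| / ε := by positivity
    have hneg : Real.log δ < 0 := by linarith
    rw [div_le_iff_of_neg hneg]
    have hpos : 0 < κ * δ ^ ((d : ℝ) - d / c) := by
      have := h2.1
      positivity
    have h5 := Real.log_le_log hpos (hreal δ h2.1)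
    rw [Real.log_mul hκ.ne' (by have := h2.1; positivity), Real.log_rpow h2.1] at h5
    have h6 : ε * Real.log δ ≤ Real.log κ := by
      have h7 : |Real.log κ| / ε < -Real.log δ := by linarith
      rw [div_lt_iff₀ hε] at h7
      have := neg_abs_le (Real.log κ)
      nlinarith
    nlinarith

/-! ### Progressions -/

/-- The least number of sets of diameter at most `δ` covering `B` (for bounded `B`). -/
noncomputable def coverNum {n : ℕ} (B : Set (EuclideanSpace ℝ (Fin n))) (δ : ℝ) : ℕ :=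
  sInf {N | ∃ U : Fin N → Set (EuclideanSpace ℝ (Fin n)),
    (∀ i, ∀ x ∈ U i, ∀ y ∈ U i, dist x y ≤ δ) ∧ B ⊆ ⋃ i, U i}

/-- Upper Minkowski dimension (upper box-counting dimension). -/
noncomputable def upperMinkowski {n : ℕ} (B : Set (EuclideanSpace ℝ (Fin n))) : EReal :=
  limsup (fun δ : ℝ => ((Real.log (coverNum B δ) / Real.log (1 / δ) : ℝ) : EReal)) (𝓝[>] 0)

/-- `B` contains a `k`-term progression with every common difference in `[0,1]^n`. -/
def HasProgressions {n : ℕ} (k : ℕ) (B : Set (EuclideanSpace ℝ (Fin n))) : Prop :=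
  ∀ r : EuclideanSpace ℝ (Fin n), (∀ i, r i ∈ Set.Icc (0 : ℝ) 1) →
    ∃ a : EuclideanSpace ℝ (Fin n), ∀ j : ℕ, j < k → a + (j : ℝ) • r ∈ B

/-- `f^M_n(k)`: the infimum of the Minkowski dimensions of the bounded sets in `ℝ^n` that contain a
`k`-term progression with every common difference in `[0,1]^n` -/
noncomputable def fM (n k : ℕ) : EReal :=
  ⨅ (B : Set (EuclideanSpace ℝ (Fin n))) (_ : Bornology.IsBounded B) (_ : HasProgressions k B),
    upperMinkowski B

theorem cover_nonempty {n : ℕ} {B : Set (EuclideanSpace ℝ (Fin n))} (hB : Bornology.IsBounded B)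
    {δ : ℝ} (hδ : 0 < δ) : {N | ∃ U : Fin N → Set (EuclideanSpace ℝ (Fin n)),
    (∀ i, ∀ x ∈ U i, ∀ y ∈ U i, dist x y ≤ δ) ∧ B ⊆ ⋃ i, U i}.Nonempty := by
  obtain ⟨t, ht, hcov⟩ := Metric.totallyBounded_iff.mp
    (TotallyBounded.subset subset_closure hB.isCompact_closure.totallyBounded) (δ / 2) (by positivity)
  obtain ⟨m, f, hf⟩ := ht.fin_param
  refine ⟨m, fun i => Metric.ball (f i) (δ / 2), ?_, ?_⟩
  · intro i x hx y hy
    have h1 := Metric.mem_ball.mp hx
    have h2 := Metric.mem_ball'.mp hy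
    have := dist_triangle x (f i) y
    linarith
  · refine hcov.trans ?_
    intro x hx
    rw [Set.mem_iUnion₂] at hx
    obtain ⟨y, hy, hxy⟩ := hx
    rw [← hf.2] at hy
    obtain ⟨i, rfl⟩ := hy
    exact Set.mem_iUnion.mpr ⟨i, hxy⟩

theorem prog_dim {c : ℝ} (h : SD c) (hc : 0 < c) (n : ℕ) :
    ∃ k₀ : ℕ, ∀ k ≥ k₀, (((n : ℝ) / c : ℝ) : EReal) ≤ fM n k := by
  obtain ⟨k₀, κ, hκ, hprog⟩ := prog h hc n
  refine ⟨k₀, fun k hk => ?_⟩
  unfold fM
  refine le_iInf fun B => le_iInf fun hB => le_iInf fun hP => ?_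
  have hP' : ∀ r : EuclideanSpace ℝ (Fin n), (∀ i, r i ∈ Set.Icc (0 : ℝ) 1) →
      ∃ a : EuclideanSpace ℝ (Fin n), ∀ j : ℕ, j < k₀ → a + (j : ℝ) • r ∈ B := by
    intro r hr
    obtain ⟨a, ha⟩ := hP r hr
    exact ⟨a, fun j hj => ha j (lt_of_lt_of_le hj hk)⟩
  have hcount : ∀ δ : ℝ, 0 < δ → κ * δ ^ (-((n : ℝ) / c)) ≤ (coverNum B δ : ℝ) := by
    intro δ hδ
    obtain ⟨U, hU1, hU2⟩ := Nat.sInf_mem (cover_nonempty hB hδ)
    have := hprog B hP' δ hδ (Fin _) U hU1 hU2
    rwa [Fintype.card_fin] at this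
  refine le_of_forall_lt fun x hx => ?_
  obtain ⟨y, hxy, hy⟩ := EReal.lt_iff_exists_real_btwn.mp hx
  refine lt_of_lt_of_le hxy ?_
  have hy' : y < (n : ℝ) / c := by exact_mod_cast hy
  refine le_limsup_of_frequently_le (Eventually.frequently ?_) (by isBoundedDefault)
  set ε := (n : ℝ) / c - y with hε
  have hεpos : 0 < ε := by rw [hε]; linarith
  have hlog : Tendsto Real.log (𝓝[>] 0) atBot := Real.tendsto_log_nhdsGT_zero
  have h1 : ∀ᶠ δ : ℝ in 𝓝[>] (0 : ℝ), Real.log δ < -(|Real.log κ| / ε + 1) :=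
    hlog.eventually (eventually_lt_atBot _)
  have hsmall : ∀ᶠ δ : ℝ in 𝓝[>] (0 : ℝ), 0 < δ ∧ δ < 1 := Ioo_mem_nhdsGT one_pos
  filter_upwards [h1, hsmall] with δ h1 h2
  have habs : 0 ≤ |Real.log κ| / ε := by positivity
  have hneg : Real.log δ < 0 := by linarith
  rw [EReal.coe_le_coe_iff, one_div, Real.log_inv, le_div_iff₀ (by linarith)]
  have hpos : 0 < κ * δ ^ (-((n : ℝ) / c)) := by
    have := h2.1
    positivity
  have h5 := Real.log_le_log hpos (hcount δ h2.1)
  rw [Real.log_mul hκ.ne' (by have := h2.1; positivity), Real.log_rpow h2.1] at h5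
  have h6 : ε * Real.log δ ≤ Real.log κ := by
    have h7 : |Real.log κ| / ε < -Real.log δ := by linarith
    rw [div_lt_iff₀ hεpos] at h7
    have := neg_abs_le (Real.log κ)
    nlinarith
  have h8 : y * -Real.log δ = -((n : ℝ) / c) * Real.log δ + ε * Real.log δ := by rw [hε]; ring
  rw [h8]
  linarith

end Pool.Agent.W46.KK
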