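import Pool.Agent.W46.KK.Prog

/-!
# Kakeya sets: volume of neighbourhoods from the sums-differences inequality
-/

open Finset MeasureTheory Set
open scoped ENNReal

namespace Pool.Agent.W46.KK

theorem card_mul_le {d : ℕ} {δ : ℝ} (hδ : 0 < δ) {κ : Type} (V : Finset κ)
    (f : κ → Fin d → ℝ) (T : Set (Fin d → ℝ))
    (hT : ∀ v ∈ V, ∀ y : Fin d → ℝ, (∀ i, |y i - f v i| ≤ δ) → y ∈ T) :
    (((V.image fun v => fl δ (f v)).card : ℕ) : ℝ≥0∞) * ENNReal.ofReal δ ^ d ≤ volume T := by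
  classical
  set W := V.image fun v => fl δ (f v) with hW
  set cube : (Fin d → ℤ) → Set (Fin d → ℝ) := fun z =>
    Set.pi univ fun i => Ico (δ * z i) (δ * (z i + 1)) with hcube
  have hmem : ∀ z y, y ∈ cube z ↔ fl δ y = z := by
    intro z y
    simp only [hcube, Set.mem_pi, Set.mem_univ, forall_true_left, Set.mem_Ico]
    constructor
    · intro h
      funext i
      have h1 := h i
      rw [fl, Int.floor_eq_iff, le_div_iff₀ hδ, div_lt_iff₀ hδ]
      constructor <;> nlinarith [h1.1, h1.2]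
    · rintro rfl i
      have h1 := Int.floor_le (y i / δ)
      have h2 := Int.lt_floor_add_one (y i / δ)
      rw [le_div_iff₀ hδ] at h1
      rw [div_lt_iff₀ hδ] at h2
      simp only [fl]
      constructor <;> nlinarith
  have hvol : ∀ z, volume (cube z) = ENNReal.ofReal δ ^ d := by
    intro z
    rw [hcube]
    simp only
    rw [Real.volume_pi_Ico]
    have : ∀ i : Fin d, δ * ((z i : ℝ) + 1) - δ * (z i : ℝ) = δ := fun i => by ring
    simp only [this, Finset.prod_const, Finset.card_univ, Fintype.card_fin]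
  have hmeas : ∀ z, MeasurableSet (cube z) := fun z =>
    MeasurableSet.univ_pi fun i => measurableSet_Ico
  have hdisj : (W : Set (Fin d → ℤ)).PairwiseDisjoint cube := by
    intro z _ w _ hzw
    rw [Function.onFun, Set.disjoint_left]
    intro y hy hy'
    rw [hmem] at hy hy'
    exact hzw (hy.symm.trans hy')
  have hsub : (⋃ z ∈ W, cube z) ⊆ T := by
    intro y hy
    rw [Set.mem_iUnion₂] at hy
    obtain ⟨z, hz, hy⟩ := hy
    rw [hW, Finset.mem_image] at hz
    obtain ⟨v, hv, rfl⟩ := hz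
    rw [hmem] at hy
    refine hT v hv y fun i => ?_
    have h1 := congrFun hy i
    simp only [fl] at h1
    have a1 := Int.floor_le (y i / δ)
    have a2 := Int.lt_floor_add_one (y i / δ)
    have a3 := Int.floor_le (f v i / δ)
    have a4 := Int.lt_floor_add_one (f v i / δ)
    rw [h1] at a1 a2
    have h2 : |y i / δ - f v i / δ| ≤ 1 := abs_le.mpr ⟨by linarith, by linarith⟩
    rw [← sub_div, abs_div, abs_of_pos hδ, div_le_iff₀ hδ, one_mul] at h2
    exact h2
  calc ((W.card : ℕ) : ℝ≥0∞) * ENNReal.ofReal δ ^ d = ∑ z ∈ W, volume (cube z) := by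
        rw [Finset.sum_congr rfl fun z _ => hvol z, Finset.sum_const, nsmul_eq_mul]
    _ = volume (⋃ z ∈ W, cube z) := by
        rw [measure_biUnion_finset hdisj fun z _ => hmeas z]
    _ ≤ volume T := measure_mono hsub

/-- one slab -/
theorem slab {S : Finset ℚ} {c : ℝ} (h : SDS S c) (hc : 0 < c) (d : ℕ) (μ : ℝ) (hμ : 0 < μ) :
    ∃ η κ : ℝ, 0 < η ∧ 0 < κ ∧ ∀ (δ : ℝ), 0 < δ → ∀ (V : Finset (Fin d → ℝ))
      (p : (Fin d → ℝ) → Fin d → ℝ) (a : ℝ) (T : Set (ℝ × (Fin d → ℝ))), MeasurableSet T →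
      (∀ v ∈ V, ∀ w ∈ V, v ≠ w → ∃ i, 2 * δ / η ≤ |v i - w i|) →
      (∀ v ∈ V, ∀ t ∈ Set.Icc a (a + μ), ∀ y : Fin d → ℝ,
        (∀ i, |y i - (p v i + t * v i)| ≤ δ) → (t, y) ∈ T) →
      ENNReal.ofReal (κ * δ ^ d * (V.card : ℝ) ^ (1 / c)) ≤
        volume (T ∩ (Set.Ico a (a + μ) ×ˢ Set.univ)) := by
  classical
  obtain ⟨C, hC1, hcore⟩ := core h hc.le d
  set R : Finset ℝ := insert 1 (S.image fun r : ℚ => (r : ℝ) / (1 + r)) with hR
  set Bd : ℝ := 1 + ∑ s ∈ R, |s| with hBd
  have hBd1 : 1 ≤ Bd := by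
    have : 0 ≤ ∑ s ∈ R, |s| := Finset.sum_nonneg fun _ _ => abs_nonneg _
    rw [hBd]; linarith
  have hs : ∀ s ∈ R, |s| ≤ Bd := by
    intro s hs
    have := Finset.single_le_sum (f := fun s : ℝ => |s|) (fun _ _ => abs_nonneg _) hs
    rw [hBd]; linarith
  set η : ℝ := μ / (4 * Bd) with hη
  have hηpos : 0 < η := by positivity
  have hsη : ∀ s ∈ R, |s * η| ≤ μ / 4 := by
    intro s hs'
    rw [abs_mul, abs_of_pos hηpos, hη]
    have := hs s hs'
    calc |s| * (μ / (4 * Bd)) ≤ Bd * (μ / (4 * Bd)) := by gcongr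
      _ = μ / 4 := by field_simp
  have hRpos : (0 : ℝ) < (R.card : ℝ) := by
    have : 0 < R.card := Finset.card_pos.mpr ⟨1, Finset.mem_insert_self _ _⟩
    exact_mod_cast this
  obtain ⟨rc, hrc⟩ : ∃ rc : ℝ, rc = (R.card : ℝ) := ⟨_, rfl⟩
  rw [← hrc] at hRpos
  refine ⟨η, μ / (2 * C * rc), hηpos, by positivity, ?_⟩
  intro δ hδ V p a T hT hsep hV
  set slabT := T ∩ (Set.Ico a (a + μ) ×ˢ (Set.univ : Set (Fin d → ℝ))) with hslab
  by_cases htop : volume slabT = ⊤
  · rw [htop]; exact le_top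
  have hslabmeas : MeasurableSet slabT := hT.inter (measurableSet_Ico.prod MeasurableSet.univ)
  set G : ℝ → ℝ≥0∞ := fun t => volume (Prod.mk t ⁻¹' slabT) with hG
  have hGm : Measurable G := measurable_measure_prodMk_left hslabmeas
  have hGint : ∫⁻ t, G t = volume slabT := by
    rw [Measure.volume_eq_prod, Measure.prod_apply hslabmeas]
  have hNt : ∀ t ∈ Set.Ico a (a + μ),
      (((V.image (pos δ p t)).card : ℕ) : ℝ≥0∞) * ENNReal.ofReal δ ^ d ≤ G t := by
    intro t ht
    refine card_mul_le hδ V (fun v i => p v i + t * v i) _ ?_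
    intro v hv y hy
    rw [Set.mem_preimage, hslab]
    exact ⟨hV v hv t ⟨ht.1, ht.2.le⟩ y hy, ht, Set.mem_univ _⟩
  set mid : Set ℝ := Set.Ico (a + μ / 4) (a + 3 * μ / 4) with hmid
  have hmidvol : volume mid = ENNReal.ofReal (μ / 2) := by
    rw [hmid, Real.volume_Ico]; congr 1; ring
  have hmid0 : volume mid ≠ 0 := by
    rw [hmidvol]; simp only [ne_eq, ENNReal.ofReal_eq_zero, not_le]; positivity
  have hmidtop : volume mid ≠ ⊤ := by rw [hmidvol]; exact ENNReal.ofReal_ne_top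
  set F : ℝ → ℝ≥0∞ := fun t => ∑ s ∈ R, G (t + s * η) with hF
  have hFm : Measurable F := by
    rw [hF]
    exact Finset.measurable_fun_sum _ fun s _ => hGm.comp (measurable_id.add_const _)
  obtain ⟨t₀, ht₀, hFt⟩ := exists_le_setLAverage hmid0 hmidtop hFm.aemeasurable
  have hFint : ∫⁻ t in mid, F t ≤ ENNReal.ofReal rc * volume slabT := by
    calc ∫⁻ t in mid, F t ≤ ∫⁻ t, F t := setLIntegral_le_lintegral _ _
      _ = ∑ s ∈ R, ∫⁻ t, G (t + s * η) := by
          rw [hF, lintegral_finsetSum]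
          exact fun s _ => hGm.comp (measurable_id.add_const _)
      _ = ∑ s ∈ R, volume slabT := by
          refine Finset.sum_congr rfl fun s _ => ?_
          rw [lintegral_add_right_eq_self (fun t => G t) (s * η), hGint]
      _ = ENNReal.ofReal rc * volume slabT := by
          rw [Finset.sum_const, nsmul_eq_mul, hrc, ENNReal.ofReal_natCast]
  set W : ℝ := (volume slabT).toReal with hW
  have hWnn : 0 ≤ W := ENNReal.toReal_nonneg
  have hWeq : volume slabT = ENNReal.ofReal W := (ENNReal.ofReal_toReal htop).symm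
  have hFle : F t₀ ≤ ENNReal.ofReal (2 * rc * W / μ) := by
    refine hFt.trans ?_
    rw [setLAverage_eq, hmidvol]
    refine ENNReal.div_le_of_le_mul ?_
    refine hFint.trans ?_
    rw [hWeq, ← ENNReal.ofReal_mul (by positivity), ← ENNReal.ofReal_mul (by positivity)]
    apply ENNReal.ofReal_le_ofReal
    apply le_of_eq
    field_simp
  set B : ℝ := 2 * rc * W / μ / δ ^ d with hB
  have hBnn : 0 ≤ B := by positivity
  have htime : ∀ s ∈ R, ((V.image (pos δ p (t₀ + s * η))).card : ℝ) ≤ B := by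
    intro s hs'
    have h1 := hsη s hs'
    rw [abs_le] at h1
    have h2 : t₀ + s * η ∈ Set.Ico a (a + μ) := by
      rw [hmid] at ht₀
      constructor <;> [linarith [ht₀.1, h1.1]; linarith [ht₀.2, h1.2]]
    have h3 := hNt _ h2
    have h4 : G (t₀ + s * η) ≤ F t₀ := by
      rw [hF]
      exact Finset.single_le_sum (f := fun s => G (t₀ + s * η)) (fun _ _ => zero_le) hs'
    have h5 := (h3.trans h4).trans hFle
    rw [← ENNReal.ofReal_pow hδ.le, ← ENNReal.ofReal_natCast,
      ← ENNReal.ofReal_mul (Nat.cast_nonneg _), ENNReal.ofReal_le_ofReal_iff (by positivity)] at h5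
    rw [hB, le_div_iff₀ (by positivity)]
    exact h5
  have key := hcore δ hδ V p t₀ η hηpos hsep B
    (by have := htime 1 (Finset.mem_insert_self _ _); rwa [one_mul] at this)
    (by
      intro r hr
      exact htime _ (Finset.mem_insert_of_mem (Finset.mem_image_of_mem _ hr)))
  have h6 : ((V.card : ℝ)) ^ (1 / c) ≤ C * B := by
    have h7 := Real.rpow_le_rpow (Nat.cast_nonneg _) key (by positivity : 0 ≤ 1 / c)
    rwa [← Real.rpow_mul (by positivity), mul_one_div_cancel hc.ne', Real.rpow_one] at h7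
  rw [hWeq]
  apply ENNReal.ofReal_le_ofReal
  calc μ / (2 * C * rc) * δ ^ d * (V.card : ℝ) ^ (1 / c)
      ≤ μ / (2 * C * rc) * δ ^ d * (C * B) := by gcongr
    _ = W := by
      rw [hB]
      field_simp

/-- superadditivity of concave powers -/
theorem rpow_sum_le {ι : Type} (J : Finset ι) (x : ι → ℝ) (hx : ∀ j ∈ J, 0 ≤ x j) {θ : ℝ}
    (h0 : 0 < θ) (h1 : θ ≤ 1) : (∑ j ∈ J, x j) ^ θ ≤ ∑ j ∈ J, x j ^ θ := by
  set A := ∑ j ∈ J, x j with hA
  have hAnn : 0 ≤ A := Finset.sum_nonneg hx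
  rcases hAnn.eq_or_lt with hA0 | hApos
  · rw [← hA0, Real.zero_rpow h0.ne']
    exact Finset.sum_nonneg fun j hj => Real.rpow_nonneg (hx j hj) _
  · have hterm : ∀ j ∈ J, x j * A ^ (θ - 1) ≤ x j ^ θ := by
      intro j hj
      rcases (hx j hj).eq_or_lt with hj0 | hjpos
      · rw [← hj0, zero_mul, Real.zero_rpow h0.ne']
      · have hle : x j ≤ A := by
          rw [hA]; exact Finset.single_le_sum hx hj
        have h2 : A ^ (θ - 1) ≤ x j ^ (θ - 1) :=
          Real.rpow_le_rpow_of_nonpos hjpos hle (by linarith)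
        calc x j * A ^ (θ - 1) ≤ x j * x j ^ (θ - 1) := by gcongr
          _ = x j ^ θ := by
            rw [Real.rpow_sub_one hjpos.ne']
            field_simp
    calc A ^ θ = A * A ^ (θ - 1) := by
          rw [Real.rpow_sub_one hApos.ne']; field_simp
      _ = ∑ j ∈ J, x j * A ^ (θ - 1) := by rw [hA, Finset.sum_mul]
      _ ≤ _ := Finset.sum_le_sum hterm

/-- families of segments in `ℝ × ℝ^d` -/
theorem kak {c : ℝ} (h : SD c) (hc : 1 ≤ c) (d : ℕ) (lam : ℝ) (hlam : 0 < lam) :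
    ∃ κ : ℝ, 0 < κ ∧ ∀ (δ : ℝ), 0 < δ → ∀ (p : (Fin d → ℝ) → Fin d → ℝ) (b : (Fin d → ℝ) → ℝ)
      (T : Set (ℝ × (Fin d → ℝ))), MeasurableSet T →
      (∀ v : Fin d → ℝ, (∀ i, 0 ≤ v i ∧ v i ≤ 1) → ∀ t ∈ Set.Icc (b v) (b v + lam),
        ∀ y : Fin d → ℝ, (∀ i, |y i - (p v i + t * v i)| ≤ δ) → (t, y) ∈ T) →
      ENNReal.ofReal (κ * δ ^ ((d : ℝ) - d / c)) ≤ volume T := by
  classical
  obtain ⟨S, hS⟩ := h
  have hc0 : 0 < c := by linarith
  obtain ⟨η, κ, hη, hκ, hslab⟩ := slab hS hc0 d (lam / 2) (by positivity)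
  refine ⟨κ * (η / 2) ^ ((d : ℝ) / c), by positivity, ?_⟩
  intro δ hδ p b T hT hfam
  set μ : ℝ := lam / 2 with hμ
  have hμpos : 0 < μ := by positivity
  set L : ℝ := 2 * δ / η with hL
  have hLpos : 0 < L := by positivity
  set V := grid d L with hV
  set j : (Fin d → ℝ) → ℤ := fun v => ⌈b v / μ⌉ with hj
  set J := V.image j with hJ
  have hone : ∀ m : ℤ, ENNReal.ofReal (κ * δ ^ d * ((V.filter fun v => j v = m).card : ℝ) ^ (1 / c)) ≤
      volume (T ∩ (Set.Ico (m * μ) (m * μ + μ) ×ˢ Set.univ)) := by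
    intro m
    refine hslab δ hδ (V.filter fun v => j v = m) p (m * μ) T hT ?_ ?_
    · intro v hv w hw hne
      exact grid_sep hLpos (Finset.mem_filter.mp hv).1 (Finset.mem_filter.mp hw).1 hne
    · intro v hv t ht y hy
      rw [Finset.mem_filter] at hv
      refine hfam v (fun i => grid_mem hLpos hv.1 i) t ?_ y hy
      have h1 : b v / μ ≤ m := by rw [← hv.2]; exact Int.le_ceil _
      have h2 : (m : ℝ) < b v / μ + 1 := by rw [← hv.2]; exact Int.ceil_lt_add_one _
      rw [div_le_iff₀ hμpos] at h1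
      have h3 : (m : ℝ) * μ < b v + μ := by
        have := mul_lt_mul_of_pos_right h2 hμpos
        rwa [add_mul, one_mul, div_mul_cancel₀ _ hμpos.ne'] at this
      have hlam' : lam = 2 * μ := by rw [hμ]; ring
      constructor
      · linarith [ht.1]
      · linarith [ht.2]
  have hdisj : (J : Set ℤ).PairwiseDisjoint fun m : ℤ =>
      T ∩ (Set.Ico ((m : ℝ) * μ) (m * μ + μ) ×ˢ (Set.univ : Set (Fin d → ℝ))) := by
    intro m _ m' _ hmm
    rw [Function.onFun, Set.disjoint_left]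
    rintro ⟨t, y⟩ ⟨_, ht, _⟩ ⟨_, ht', _⟩
    apply hmm
    simp only at ht ht'
    have a1 : (m : ℝ) < m' + 1 := by
      by_contra hcon
      push Not at hcon
      have := mul_le_mul_of_nonneg_right hcon hμpos.le
      linarith [ht.1, ht'.2]
    have a2 : (m' : ℝ) < m + 1 := by
      by_contra hcon
      push Not at hcon
      have := mul_le_mul_of_nonneg_right hcon hμpos.le
      linarith [ht'.1, ht.2]
    have b1 : m < m' + 1 := by exact_mod_cast a1
    have b2 : m' < m + 1 := by exact_mod_cast a2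
    omega
  have hsum : ∑ m ∈ J, volume (T ∩ (Set.Ico ((m : ℝ) * μ) (m * μ + μ) ×ˢ Set.univ)) ≤ volume T := by
    rw [← measure_biUnion_finset hdisj fun m _ =>
      hT.inter (measurableSet_Ico.prod MeasurableSet.univ)]
    exact measure_mono (Set.iUnion₂_subset fun m _ => Set.inter_subset_left)
  refine le_trans ?_ hsum
  refine le_trans ?_ (Finset.sum_le_sum fun m _ => hone m)
  rw [← ENNReal.ofReal_sum_of_nonneg fun m _ => by positivity]
  apply ENNReal.ofReal_le_ofReal
  rw [← Finset.mul_sum]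
  have hcardsum : ∑ m ∈ J, ((V.filter fun v => j v = m).card : ℝ) = (V.card : ℝ) := by
    have := Finset.card_eq_sum_card_image j V
    rw [this]
    push_cast
    rfl
  have h1 := rpow_sum_le J (fun m => ((V.filter fun v => j v = m).card : ℝ))
    (fun _ _ => Nat.cast_nonneg _) (θ := 1 / c) (by positivity)
    (by rw [div_le_one hc0]; exact hc)
  rw [hcardsum] at h1
  have h2 : (η / 2) ^ ((d : ℝ) / c) * δ ^ (-((d : ℝ) / c)) ≤ (V.card : ℝ) ^ (1 / c) := by
    have h3 := Real.rpow_le_rpow (by positivity) (grid_card (d := d) hLpos)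
      (by positivity : 0 ≤ 1 / c)
    refine le_trans (le_of_eq ?_) h3
    rw [← Real.rpow_natCast, ← Real.rpow_mul (by positivity), mul_one_div, hL,
      show (1 / (2 * δ / η)) = (η / 2) * δ⁻¹ by field_simp,
      Real.mul_rpow (by positivity) (by positivity), Real.inv_rpow hδ.le, Real.rpow_neg hδ.le]
  calc κ * (η / 2) ^ ((d : ℝ) / c) * δ ^ ((d : ℝ) - d / c)
      = κ * δ ^ d * ((η / 2) ^ ((d : ℝ) / c) * δ ^ (-((d : ℝ) / c))) := by
        rw [sub_eq_add_neg, Real.rpow_add hδ, Real.rpow_natCast]; ring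
    _ ≤ κ * δ ^ d * (V.card : ℝ) ^ (1 / c) := by gcongr
    _ ≤ _ := by gcongr

end Pool.Agent.W46.KK
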