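import Pool.Agent.W46.KK.Core

/-!
# Progressions with all common differences
-/

open Finset

namespace Pool.Agent.W46.KK

/-- a finite set of points covered by `N` sets of coordinatewise diameter at most `δ` meets at most
`3 ^ d * N` cells of the grid -/
theorem card_cells {d : ℕ} {δ : ℝ} (hδ : 0 < δ) {ι : Type} [Fintype ι] (U : ι → Set (Fin d → ℝ))
    (hU : ∀ i, ∀ x ∈ U i, ∀ y ∈ U i, ∀ l, |x l - y l| ≤ δ) {κ : Type} (V : Finset κ)
    (f : κ → Fin d → ℝ) (hf : ∀ v ∈ V, ∃ i, f v ∈ U i) :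
    (V.image fun v => fl δ (f v)).card ≤ 3 ^ d * Fintype.card ι := by
  classical
  set base : ι → Fin d → ℤ := fun i => if h : (U i).Nonempty then fl δ h.some else 0 with hbase
  have hsub : (V.image fun v => fl δ (f v)) ⊆
      (Finset.univ : Finset (ι × (Fin d → Fin 3))).image fun q => fun l =>
        base q.1 l + ((q.2 l : ℕ) : ℤ) - 1 := by
    intro z hz
    rw [Finset.mem_image] at hz
    obtain ⟨v, hv, rfl⟩ := hz
    obtain ⟨i, hi⟩ := hf v hv
    have hne : (U i).Nonempty := ⟨_, hi⟩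
    have hb : base i = fl δ hne.some := by simp only [hbase]; rw [dif_pos hne]
    have hdist : ∀ l, ⌊hne.some l / δ⌋ - 1 ≤ ⌊f v l / δ⌋ ∧ ⌊f v l / δ⌋ ≤ ⌊hne.some l / δ⌋ + 1 := by
      intro l
      have h1 := hU i _ hi _ hne.some_mem l
      rw [abs_le] at h1
      have h2 : f v l / δ ≤ hne.some l / δ + 1 := by
        rw [div_add_one hδ.ne', div_le_div_iff_of_pos_right hδ]; linarith
      have h3 : hne.some l / δ - 1 ≤ f v l / δ := by
        rw [div_sub_one hδ.ne', div_le_div_iff_of_pos_right hδ]; linarith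
      constructor
      · have := Int.floor_le_floor h3
        rwa [Int.floor_sub_one] at this
      · have := Int.floor_le_floor h2
        rwa [Int.floor_add_one] at this
    rw [Finset.mem_image]
    refine ⟨(i, fun l => ⟨(⌊f v l / δ⌋ - ⌊hne.some l / δ⌋ + 1).toNat, by
      have := hdist l; omega⟩), Finset.mem_univ _, ?_⟩
    funext l
    have h := hdist l
    simp only [hb, fl]
    have h4 : (((⌊f v l / δ⌋ - ⌊hne.some l / δ⌋ + 1).toNat : ℕ) : ℤ)
        = ⌊f v l / δ⌋ - ⌊hne.some l / δ⌋ + 1 := Int.toNat_of_nonneg (by omega)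
    rw [h4]
    ring
  refine (Finset.card_le_card hsub).trans (Finset.card_image_le.trans ?_)
  rw [Finset.card_univ, Fintype.card_prod, Fintype.card_pi, Finset.prod_const, Finset.card_univ,
    Fintype.card_fin, Fintype.card_fin, mul_comm]

/-- the grid of step `L` in the unit cube -/
noncomputable def grid (d : ℕ) (L : ℝ) : Finset (Fin d → ℝ) :=
  (Finset.univ : Finset (Fin d → Fin (⌊1 / L⌋₊ + 1))).image fun k => fun i => ((k i : ℕ) : ℝ) * L

theorem grid_mem {d : ℕ} {L : ℝ} (hL : 0 < L) {v : Fin d → ℝ} (hv : v ∈ grid d L) (i : Fin d) :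
    0 ≤ v i ∧ v i ≤ 1 := by
  unfold grid at hv
  rw [Finset.mem_image] at hv
  obtain ⟨k, -, rfl⟩ := hv
  refine ⟨by positivity, ?_⟩
  have h1 : (k i : ℕ) ≤ ⌊1 / L⌋₊ := Nat.lt_succ_iff.mp (k i).2
  have h2 : ((k i : ℕ) : ℝ) ≤ 1 / L :=
    le_trans (by exact_mod_cast h1) (Nat.floor_le (by positivity))
  rw [le_div_iff₀ hL] at h2
  exact h2

theorem grid_sep {d : ℕ} {L : ℝ} (hL : 0 < L) {v w : Fin d → ℝ} (hv : v ∈ grid d L)
    (hw : w ∈ grid d L) (hne : v ≠ w) : ∃ i, L ≤ |v i - w i| := by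
  unfold grid at hv hw
  rw [Finset.mem_image] at hv hw
  obtain ⟨k, -, rfl⟩ := hv
  obtain ⟨l, -, rfl⟩ := hw
  have hkl : k ≠ l := by
    rintro rfl
    exact hne rfl
  obtain ⟨i, hi⟩ := Function.ne_iff.mp hkl
  refine ⟨i, ?_⟩
  rw [← sub_mul, abs_mul, abs_of_pos hL]
  have h1 : (k i : ℕ) ≠ (l i : ℕ) := fun h => hi (Fin.ext h)
  have h2 : (1 : ℝ) ≤ |((k i : ℕ) : ℝ) - ((l i : ℕ) : ℝ)| := by
    have h3 : ((k i : ℕ) : ℤ) - ((l i : ℕ) : ℤ) ≠ 0 := by
      intro h; apply h1; omega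
    have h4 := Int.one_le_abs h3
    have : (1 : ℝ) ≤ ((|((k i : ℕ) : ℤ) - ((l i : ℕ) : ℤ)| : ℤ) : ℝ) := by exact_mod_cast h4
    push_cast at this
    exact this
  nlinarith

theorem grid_card {d : ℕ} {L : ℝ} (hL : 0 < L) : (1 / L) ^ d ≤ ((grid d L).card : ℝ) := by
  have h1 : (grid d L).card = (⌊1 / L⌋₊ + 1) ^ d := by
    unfold grid
    rw [Finset.card_image_of_injective]
    · rw [Finset.card_univ, Fintype.card_pi, Finset.prod_const, Finset.card_univ,
        Fintype.card_fin, Fintype.card_fin]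
    · intro k l hkl
      funext i
      have h2 := congrFun hkl i
      simp only at h2
      have h3 := mul_right_cancel₀ hL.ne' h2
      exact Fin.ext (by exact_mod_cast h3)
  rw [h1]
  push_cast
  exact pow_le_pow_left₀ (by positivity) (Nat.lt_floor_add_one _).le d

/-- **Progressions.** Covering numbers of sets containing `k`-term progressions with all common
differences in the unit cube. -/
theorem prog {c : ℝ} (h : SD c) (hc : 0 < c) (n : ℕ) :
    ∃ k : ℕ, ∃ κ : ℝ, 0 < κ ∧ ∀ B : Set (EuclideanSpace ℝ (Fin n)),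
      (∀ r : EuclideanSpace ℝ (Fin n), (∀ i, r i ∈ Set.Icc (0 : ℝ) 1) →
        ∃ a : EuclideanSpace ℝ (Fin n), ∀ j : ℕ, j < k → a + (j : ℝ) • r ∈ B) →
      ∀ δ : ℝ, 0 < δ → ∀ (ι : Type) [Fintype ι] (U : ι → Set (EuclideanSpace ℝ (Fin n))),
        (∀ i, ∀ x ∈ U i, ∀ y ∈ U i, dist x y ≤ δ) → B ⊆ ⋃ i, U i →
        κ * δ ^ (-((n : ℝ) / c)) ≤ (Fintype.card ι : ℝ) := by
  classical
  obtain ⟨S, hS⟩ := h
  obtain ⟨C, hC1, hcore⟩ := core hS hc.le n
  -- times
  set sl : ℚ → ℚ := fun r => r / (1 + r) with hsl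
  set η : ℕ := ∏ r ∈ S, (sl r).den with hη
  have hη1 : 1 ≤ η := by
    rw [hη]
    exact Finset.one_le_prod' fun r _ => (sl r).den_pos
  have hint : ∀ r ∈ S, ∃ z : ℤ, (z : ℚ) = sl r * η := by
    intro r hr
    obtain ⟨m, hm⟩ := Finset.dvd_prod_of_mem (fun r => (sl r).den) hr
    refine ⟨(sl r).num * m, ?_⟩
    rw [← hη] at hm
    have h1 : (η : ℚ) = (sl r).den * m := by exact_mod_cast hm
    rw [h1, ← mul_assoc, Rat.mul_den_eq_num]
    push_cast
    ring
  choose! z hz using hint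
  set t₀ : ℕ := ∑ r ∈ S, (z r).natAbs with ht₀
  have hle : ∀ r ∈ S, (z r).natAbs ≤ t₀ := fun r hr => by
    rw [ht₀]
    exact Finset.single_le_sum (f := fun r => (z r).natAbs) (fun _ _ => Nat.zero_le _) hr
  set k : ℕ := 2 * t₀ + η + 1 with hk
  have hjr : ∀ r ∈ S, ∃ j : ℕ, j < k ∧ (j : ℝ) = (t₀ : ℝ) + (r : ℝ) / (1 + r) * (η : ℝ) := by
    intro r hr
    have h1 := hle r hr
    refine ⟨((t₀ : ℤ) + z r).toNat, by omega, ?_⟩
    have h2 : ((((t₀ : ℤ) + z r).toNat : ℤ)) = (t₀ : ℤ) + z r := Int.toNat_of_nonneg (by omega)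
    have h3 : ((((t₀ : ℤ) + z r).toNat : ℝ)) = (t₀ : ℝ) + (z r : ℝ) := by exact_mod_cast h2
    rw [h3]
    have h4 : ((z r : ℚ) : ℝ) = ((sl r * η : ℚ) : ℝ) := by rw [hz r hr]
    push_cast at h4
    rw [h4, hsl]
    push_cast
    ring
  set D : ℝ := C * 3 ^ n with hD
  have hDpos : 0 < D := by positivity
  refine ⟨k, (1 / 2) ^ ((n : ℝ) / c) / D, by positivity, ?_⟩
  intro B hB δ hδ ι _ U hU hcov
  have hηR : (1 : ℝ) ≤ (η : ℝ) := by exact_mod_cast hη1
  have hηpos : (0 : ℝ) < (η : ℝ) := by linarith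
  set L : ℝ := 2 * δ / η with hL
  have hLpos : 0 < L := by positivity
  set V := grid n L with hV
  -- base points
  have hex : ∀ v : Fin n → ℝ, ∃ a : Fin n → ℝ, (∀ i, v i ∈ Set.Icc (0 : ℝ) 1) →
      ∀ j : ℕ, j < k → WithLp.toLp 2 (fun i => a i + (j : ℝ) * v i) ∈ B := by
    intro v
    by_cases hv : ∀ i, v i ∈ Set.Icc (0 : ℝ) 1
    · obtain ⟨a, ha⟩ := hB (WithLp.toLp 2 v) hv
      refine ⟨fun i => a i, fun _ j hj => ?_⟩
      convert ha j hj using 1
      ext i
      simp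
    · exact ⟨0, fun h' => absurd h' hv⟩
  choose p hp using hex
  have hN : ∀ j : ℕ, j < k → ((V.image (pos δ p j)).card : ℝ) ≤ 3 ^ n * (Fintype.card ι : ℝ) := by
    intro j hj
    have h1 := card_cells (d := n) hδ (fun i => (WithLp.toLp 2) ⁻¹' (U i))
      (fun i x hx y hy l => by
        have h2 := hU i _ hx _ hy
        refine le_trans ?_ h2
        rw [EuclideanSpace.dist_eq]
        have h3 : dist (x l) (y l) ^ 2 ≤ ∑ i, dist (x i) (y i) ^ 2 :=
          Finset.single_le_sum (f := fun i => dist (x i) (y i) ^ 2) (fun _ _ => sq_nonneg _)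
            (Finset.mem_univ l)
        rw [← Real.dist_eq]
        exact Real.le_sqrt_of_sq_le h3)
      V (fun v i => p v i + (j : ℝ) * v i) (fun v hv => by
        have h2 := hp v (fun i => grid_mem hLpos hv i) j hj
        have h3 := hcov h2
        rw [Set.mem_iUnion] at h3
        exact h3)
    exact_mod_cast h1
  have key := hcore δ hδ V p t₀ η hηpos (fun v hv w hw hne => grid_sep hLpos hv hw hne)
    (3 ^ n * (Fintype.card ι : ℝ))
    (by
      have := hN (t₀ + η) (by omega)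
      push_cast at this
      exact this)
    (by
      intro r hr
      obtain ⟨j, hj, hjr'⟩ := hjr r hr
      have := hN j hj
      rwa [hjr'] at this)
  set N : ℝ := (Fintype.card ι : ℝ) with hNdef
  have hNnn : 0 ≤ N := Nat.cast_nonneg _
  have hcard : (1 / (2 * δ)) ^ n ≤ (V.card : ℝ) := by
    refine le_trans ?_ (grid_card hLpos)
    refine pow_le_pow_left₀ (by positivity) ?_ n
    rw [hL, one_div_div]
    exact div_le_div_of_nonneg_right hηR (by positivity)
  have h5 : (1 / (2 * δ)) ^ n ≤ (D * N) ^ c := by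
    refine hcard.trans (key.trans (le_of_eq ?_))
    rw [hD, mul_assoc]
  have h6 : ((1 / (2 * δ)) ^ n) ^ (1 / c) ≤ D * N := by
    have h7 := Real.rpow_le_rpow (by positivity) h5 (by positivity : 0 ≤ 1 / c)
    rwa [← Real.rpow_mul (by positivity), mul_one_div_cancel hc.ne', Real.rpow_one] at h7
  have h8 : ((1 / (2 * δ)) ^ n) ^ (1 / c) = (1 / 2) ^ ((n : ℝ) / c) * δ ^ (-((n : ℝ) / c)) := by
    rw [← Real.rpow_natCast, ← Real.rpow_mul (by positivity), mul_one_div,
      show (1 / (2 * δ)) = (1 / 2) * δ⁻¹ by field_simp,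
      Real.mul_rpow (by norm_num) (by positivity), Real.inv_rpow hδ.le, Real.rpow_neg hδ.le]
  rw [h8] at h6
  rw [div_mul_eq_mul_div, div_le_iff₀ hDpos, mul_comm N D]
  exact h6

end Pool.Agent.W46.KK
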